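import Pool.Agent.Q99.XF.Asm
import Pool.Agent.Q99.XF.Log
import Pool.Agent.Q99.HX.Rate
import Pool.Agent.W613.QAT.Cont
import Pool.Agent.W591.QAT.Reid
import Pool.Agent.W709.QAT.Fin
import Pool.Agent.H105R3.JSanCurl
import Pool.Agent.H309R4.Jones.SanU
import Pool.Agent.H550R3.Jones.SanSkein699
import Pool.Agent.Q151.FW.Tri0
import Pool.Agent.Q191.TW.Out

/-!
# Ratios of the Kashaev invariants of all fully augmented links, to all orders

A fully augmented link is given by a diagram in the plane all of whose crossings lie in twist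
regions, each of which is encircled: an unknotted circle, which is a component of the link, runs
around the two strands of the twist region.  The number of crossings of a twist region may be any
natural number (including `0`), of any sign.  Shrink each encircled twist region to a point: the
result is a plane graph `Γ` all of whose vertices have valence `4`; at each vertex the circle
separates the four edges into two pairs of neighbours.  All connected plane `4`-valent graphs with
such a pairing at each vertex arise.

**Diagrams.**  Cut the link open at an edge of `Γ`, which we may take on the outside, so that it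
becomes a diagram with one strand at the bottom and one at the top.  If `Γ` has no cut vertex (at a
cut vertex the link is split, a connected sum, or not hyperbolic because the twist region and its
circle form a Seifert link), then by the theorem of Lempel, Even and Cederbaum it can be drawn such
that all edges are monotone: each vertex has one edge below and three above, or two and two, or three
and one.  With the pairing at the vertex these are six types of vertices (`Shape`).  A diagram is a
list of vertices from bottom to top; the vertex `⟨s, i, σ, m⟩` has the shape `s`, stands on the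
strands `i, i + 1, …`, and has `m` crossings of the sign `σ`.  `Vertex.elems` gives the diagram of the
link: a twist region on two vertical strands with its circle, and cups and caps (which turn its ends
up or down).  `IsDiagram D n`: `D` is a diagram with `n` strands at the bottom and one at the top.
`Reduced D n`: no proper part of the diagram ends with one single strand (otherwise the link is a
connected sum).

**Angle structures.**  By C. Adams, I. Agol and D. Thurston, and J. Purcell (An introduction to fully
augmented links), if there are no half twists the complement of the link is decomposed by the plane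
and by the discs of the circles into two copies of a right-angled ideal polyhedron `P`.  The faces of
`P` are the regions of the plane (`Γ` with `c` vertices has `c + 2` regions) and two triangles for
each vertex of `Γ`.  A vertex has four corners, which in the frame of the twist region (whose
strands run from bottom to top) are called below, right, above and left; the first triangle is
adjacent to the regions in the corners below, right and left, and the second triangle to those in the
corners above, right and left.  Let `x : Fin 6 → ℝ` be the six angles of a vertex, where `x 0, x 1,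
x 2` belong to the pairs (first triangle, below), (first triangle, right), (first triangle, left) and
`x 3, x 4, x 5` to (second triangle, above), (second triangle, right), (second triangle, left); the
unit is `π`.  So the angles in the four corners are `x 0`, `x 1 + x 4`, `x 3`, `x 2 + x 5`
(`corner x`).  Put the ideal vertex of `P` which belongs to the cut edge to infinity in the upper
half space.  The faces of `P` become circles, orthogonal or tangent to each other, and the two regions
next to the cut edge (the regions on the left and on the right of the diagram) become parallel lines.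
`π x j` is half the angle, at the centre of the circle of the region, of the kite spanned by the
centres of the two circles and their points of intersection; so `π / 2 - π x j` is the same at the
centre of the circle of the triangle.  Hence (around the centres) the three angles of each triangle
have the sum `1 / 2`, the angles of each region inside the diagram have the sum `1`, and the angles
in the two outer regions are `0`.  Real numbers `≥ 0` with these properties are the angle structures
(`Angles D`), a polytope.  The recursion in `IsAngles` (from bottom to top) sums the angles of all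
regions: with `n` strands there are `n + 1` gaps, the gap `k` is on the left of the strand `k`;
`gaps` gives the sums in the gaps above a vertex from the sums in the gaps below it, `ended` the
sums of the regions which end at the vertex.

The volume of `P` is the sum of `Λ (π x j) + Λ (π / 2 - π x j)` over all its kites, and by I. Rivin
(see also A. Bobenko and B. Springborn) the geometric angles are the maximum point of this concave
function on the polytope of angle structures: the volume of the link complement is the maximum of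
`∑ 2 (Λ (π x j) + Λ (π / 2 - π x j))`, which is `vol D`.  Half twists do not change the volume (C.
Adams).  The link is hyperbolic if and only if there is an angle structure with `x j > 0` for all
angles not in the outer regions, `Positive D p` (one direction is the existence of the geometric
structure, the other one Rivin's theorem and the gluing of two copies of `P`); this holds for all
prime diagrams with at least two vertices and without parallel circles (Koebe, Andreev, Thurston,
Purcell).  These facts on hyperbolic volumes are cited, and are not part of the Lean statement: there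
`vol D` is defined as the maximum over the polytope of angle structures.

**Chern-Simons invariants.**  If there are no half twists, the reflection in the plane of the diagram
maps the link to itself, so the Chern-Simons invariant is `0`; each half twist changes it by
`π^2 / 2` modulo `π^2` (R. Meyerhoff and D. Ruberman, mutation along a thrice punctured sphere).  So
for `w` crossings, counted with signs, it is `cs D = - π^2 w / 2` modulo `π^2` (also cited, not part
of the Lean statement, where `cs D` is this number).

**Theorem.**  For every reduced diagram `D` which has a positive angle structure, and all `e`, `f`: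
`a_n = ⟨D⟩_n` (with the framing and sign given by `e` and `f`) is not `0` for large `n`, and
modulo `i π^2`
`π log (a_{n+2} / a_n) = (vol D + i cs D) + 3 π / n + c_2 / n^2 + ⋯ + c_{K-1} / n^{K-1} + O(n^{-K})`
for all `K`, with constants `c_2, c_3, …`.  In particular the ratio `π log (a_{n+2} / a_n)` has the
limit `vol D + i cs D` modulo `i π^2`, for all `n` and in particular along the odd integers.

So the complexified volume conjecture, in the form of ratios, is true for all hyperbolic fully
augmented links, with any half twists, with an asymptotic expansion to all orders.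

The invariants are defined from the R-matrix of `U_q(sl_2)`, with `v = q^{1/2}` and
`{k} = v^k - v^{-k}`.  The Kashaev invariant is the value at `v = exp (π i / N)`, that is
`q = exp (2 π i / N)`; the framing is normalised for strands which are oriented upwards.  Even
changes of the framing and changes of the orientations multiply it by powers of
`v^{N^2-1} = (-1)^N exp (-π i / N)`, and
other conventions for cups and caps by `± (-1)^{N-1}`.  The theorem is proved for all `framed e f D`,
in which these factors are arbitrary: they change `cs` by multiples of `2 π^2` only.  (With the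
convention `Φ = cs + i vol` and the limit `exp (Φ / 2 π i)` the sign of `cs` changes, which makes no
difference modulo `π^2` here.)
-/

set_option autoImplicit false

namespace Pool.Agent.Results.MP_b30479_gt.FullyAugmentedRatios

open Finset Filter Topology Pointwise

/-! ### The operators of diagrams in the plane -/

/-- `{n} = v^n - v^{-n}` -/
noncomputable def br (v : ℂ) (n : ℤ) : ℂ := v ^ n - v ^ (-n)

/-- `{n}! = {1} {2} ⋯ {n}` -/
noncomputable def brf (v : ℂ) (n : ℕ) : ℂ := ∏ j ∈ range n, br v ((j : ℤ) + 1)

/-- The positive crossing: the R-matrix of `U_q(sl_2)` on `V_N ⊗ V_N`, `V_N` with basis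
`e_0, …, e_{N-1}`, times the framing factor `v^{-(N^2-1)/2}`; `crossP N v p q` is the coefficient
of `e_{p.1} ⊗ e_{p.2}` in the image of `e_{q.1} ⊗ e_{q.2}`:
`e_i ⊗ e_j ↦ ∑_n v^{-(N-1)(1+i+j) + 2(i-n)(j+n) + n(n-1)/2}
({j+n}! / ({j}! {n}!)) ∏_{t<n} {N-i+t} e_{j+n} ⊗ e_{i-n}`. -/
noncomputable def crossP (N : ℕ) (v : ℂ) : Matrix (Fin N × Fin N) (Fin N × Fin N) ℂ :=
  fun p q => if (p.1 : ℕ) + p.2 = q.1 + q.2 ∧ (q.2 : ℕ) ≤ p.1 then
    v ^ (-((N : ℤ) - 1) * (1 + (q.1 : ℕ) + (q.2 : ℕ)) + 2 * (p.1 : ℕ) * (p.2 : ℕ)) *
      v ^ (((p.1 : ℕ) - q.2) * ((p.1 : ℕ) - q.2 - 1) / 2) *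
      (brf v p.1 / (brf v q.2 * brf v ((p.1 : ℕ) - q.2))) *
      ∏ t ∈ range ((p.1 : ℕ) - q.2), br v ((N : ℤ) - (q.1 : ℕ) + t)
    else 0

/-- The negative crossing, inverse of `crossP N v`:
`e_i ⊗ e_j ↦ ∑_n (-1)^n v^{(N-1)(1+i+j) - 2ij - n(n-1)/2}
({i+n}! / ({i}! {n}!)) ∏_{t<n} {N-j+t} e_{j-n} ⊗ e_{i+n}`. -/
noncomputable def crossN (N : ℕ) (v : ℂ) : Matrix (Fin N × Fin N) (Fin N × Fin N) ℂ :=
  fun p q => if (p.1 : ℕ) + p.2 = q.1 + q.2 ∧ (q.1 : ℕ) ≤ p.2 then
    (-1) ^ ((p.2 : ℕ) - q.1) *
      v ^ (((N : ℤ) - 1) * (1 + (q.1 : ℕ) + (q.2 : ℕ)) - 2 * (q.1 : ℕ) * (q.2 : ℕ)) /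
      v ^ (((p.2 : ℕ) - q.1) * ((p.2 : ℕ) - q.1 - 1) / 2) *
      (brf v p.2 / (brf v q.1 * brf v ((p.2 : ℕ) - q.1))) *
      ∏ t ∈ range ((p.2 : ℕ) - q.1), br v ((N : ℤ) - (q.2 : ℕ) + t)
    else 0

/-- The coefficients of the invariant vector `∑_k kap k e_k ⊗ e_{N-1-k}` of `V_N ⊗ V_N`:
`kap k = (-1)^k v^{k(N-2-k)} {k}! {N-1-k}! / {N-1}!`. -/
noncomputable def kap (N : ℕ) (v : ℂ) (k : ℕ) : ℂ :=
  (-1) ^ k * v ^ ((k : ℤ) * ((N : ℤ) - 2 - k)) * (brf v k * brf v (N - 1 - k) / brf v (N - 1))

/-- The cup: the invariant vector of `V_N ⊗ V_N`. -/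
noncomputable def cup (N : ℕ) (v : ℂ) (p : Fin N × Fin N) : ℂ :=
  if (p.1 : ℕ) + p.2 = N - 1 then kap N v p.1 else 0

/-- The cap: the invariant linear form on `V_N ⊗ V_N`. -/
noncomputable def cap (N : ℕ) (v : ℂ) (p : Fin N × Fin N) : ℂ :=
  if (p.1 : ℕ) + p.2 = N - 1 then (kap N v p.2)⁻¹ else 0

/-- The elementary parts of a diagram in the plane.  Strands are counted from `0`, from left to
right.  `cup i` creates the strands `i` and `i + 1`, `cap i` closes the strands `i` and `i + 1`,
`twist i σ m` is a vertical twist region of `m` crossings of the strands `i` and `i + 1`, all of the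
same sign (for `σ = true` as `crossP`, for `σ = false` as `crossN`). -/
inductive Elem
  | cup (i : ℕ)
  | cap (i : ℕ)
  | twist (i : ℕ) (σ : Bool) (m : ℕ)

/-- The operator of an elementary part.  A vector of `V_N ⊗ ⋯ ⊗ V_N` is given by its coefficients
with respect to the basis vectors `e_{s_0} ⊗ ⋯ ⊗ e_{s_{n-1}}`, indexed by the lists
`s = [s_0, …, s_{n-1}]`. -/
noncomputable def Elem.act (N : ℕ) (v : ℂ) : Elem → (List (Fin N) → ℂ) → List (Fin N) → ℂ
  | .cup i, f => fun s => match s.drop i with
      | a :: b :: r => FullyAugmentedRatios.cup N v (a, b) * f (s.take i ++ r)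
      | _ => 0
  | .cap i, f => fun s =>
      ∑ p : Fin N × Fin N, FullyAugmentedRatios.cap N v p * f (s.take i ++ p.1 :: p.2 :: s.drop i)
  | .twist i σ m, f => fun s => match s.drop i with
      | a :: b :: r => ∑ p : Fin N × Fin N,
          ((if σ then crossP N v else crossN N v) ^ m) (a, b) p * f (s.take i ++ p.1 :: p.2 :: r)
      | _ => 0

/-- The operator of a diagram in the plane, a list of elementary parts from bottom to top. -/
noncomputable def run (N : ℕ) (v : ℂ) (D : List Elem) (f : List (Fin N) → ℂ) :
    List (Fin N) → ℂ := D.foldl (fun g P => P.act N v g) f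

/-! ### Fully augmented links -/

/-- A circle around the strands `i`, `i + 1`. -/
def circle (i : ℕ) : List Elem :=
  [.cup (i + 2), .twist (i + 1) true 1, .twist i true 1, .twist i true 1, .twist (i + 1) true 1,
    .cap (i + 2)]

/-- An encircled twist region: a circle around the strands `i`, `i + 1`, and `m` crossings of these
strands. -/
def region (i : ℕ) (σ : Bool) (m : ℕ) : List Elem := circle i ++ [.twist i σ m]

/-- The six types of vertices.
`vert`: two strands below, two above; the circle separates the strands above from those below.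
`hor`: two below, two above; it separates the two strands on the left from those on the right.
`forkL`: one below, three above; it separates the first two strands above from the other ones.
`forkR`: one below, three above; it separates the last two strands above from the other ones.
`joinL`: three below, one above; it separates the first two strands below from the other ones.
`joinR`: three below, one above; it separates the last two strands below from the other ones. -/
inductive Shape
  | vert
  | hor
  | forkL
  | forkR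
  | joinL
  | joinR

/-- A vertex of a diagram: its shape, the number of its first strand, and the sign and the number of
the crossings in the twist region. -/
structure Vertex where
  shape : Shape
  pos : ℕ
  sign : Bool
  num : ℕ

/-- The elementary parts of a vertex. -/
def Vertex.elems : Vertex → List Elem
  | ⟨.vert, i, σ, m⟩ => region i σ m
  | ⟨.hor, i, σ, m⟩ => .cup (i + 2) :: (region (i + 1) σ m ++ [.cap i])
  | ⟨.forkL, i, σ, m⟩ => .cup (i + 1) :: region i σ m
  | ⟨.forkR, i, σ, m⟩ => .cup i :: region (i + 1) σ m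
  | ⟨.joinL, i, σ, m⟩ => region i σ m ++ [.cap (i + 1)]
  | ⟨.joinR, i, σ, m⟩ => region (i + 1) σ m ++ [.cap i]

/-- The number of strands below a vertex. -/
def Shape.below : Shape → ℕ
  | .vert => 2
  | .hor => 2
  | .forkL => 1
  | .forkR => 1
  | .joinL => 3
  | .joinR => 3

/-- The number of all strands above a vertex, if there are `n` strands below it. -/
def Shape.above : Shape → ℕ → ℕ
  | .vert, n => n
  | .hor, n => n
  | .forkL, n => n + 2
  | .forkR, n => n + 2
  | .joinL, n => n - 2
  | .joinR, n => n - 2

/-- `D` (the list of its vertices from bottom to top) is a diagram with `n` strands at the bottom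
and one strand at the top. -/
def IsDiagram : List Vertex → ℕ → Prop
  | [], n => n = 1
  | P :: D, n => P.pos + P.shape.below ≤ n ∧ IsDiagram D (P.shape.above n)

/-- Above each vertex except the last one there is more than one strand. -/
def Reduced : List Vertex → ℕ → Prop
  | [], _ => True
  | P :: D, n => (D = [] ∨ P.shape.above n ≠ 1) ∧ Reduced D (P.shape.above n)

/-- The link of the diagram `D`, cut open at one point of the strand at the bottom. -/
def link (D : List Vertex) : List Elem := D.flatMap Vertex.elems

/-- The `N`-coloured Jones polynomial of the link of `D` (unknot `= 1`; all components coloured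
`N`) at `q = v^2`, up to sign and powers of `v`: the link is cut open at one point, its operator on
`V_N` is a multiple of the identity, and this is the coefficient of `e_0` in the image of `e_0`. -/
noncomputable def jones (N : ℕ) (D : List Vertex) (v : ℂ) : ℂ :=
  if h : 0 < N then run N v (link D) (fun l => if l = [⟨0, h⟩] then 1 else 0) [⟨0, h⟩] else 0

/-- `v_N = exp (π i / N)`, so that `q = v_N^2 = exp (2 π i / N)`. -/
noncomputable def root (N : ℕ) : ℂ := Complex.exp (Real.pi * Complex.I / N)

/-- The Kashaev invariant of the link of `D` (up to a factor of absolute value `1`). -/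
noncomputable def kashaev (D : List Vertex) (N : ℕ) : ℂ := jones N D (root N)

/-- The Kashaev invariant with another framing (changed by `2 e`, up to the sign), and with the sign
`(-1)^{f (N-1)}`. -/
noncomputable def framed (e f : ℤ) (D : List Vertex) (N : ℕ) : ℂ :=
  (-1) ^ (f * ((N : ℤ) - 1)) * root N ^ (e * ((N : ℤ) ^ 2 - 1)) * kashaev D N

/-! ### Angle structures and the volume -/

/-- The angles in the four corners of a vertex: below, right, above, left of the twist region. -/
def corner (x : Fin 6 → ℝ) : Fin 4 → ℝ := ![x 0, x 1 + x 4, x 3, x 2 + x 5]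

/-- The number of the corner which contains the angle `j`. -/
def cornerOf : Fin 6 → Fin 4 := ![0, 1, 3, 2, 1, 3]

/-- The angle sums in the gaps above a vertex with the corners `q` on the strands `i, i + 1, …`; `G`
are the sums in the gaps below it. -/
def gaps (s : Shape) (i : ℕ) (q : Fin 4 → ℝ) (G : List ℝ) : List ℝ :=
  match s, G.drop i with
  | .vert, x :: _ :: y :: r => G.take i ++ (x + q 3) :: q 2 :: (y + q 1) :: r
  | .hor, x :: _ :: y :: r => G.take i ++ (x + q 2) :: q 1 :: (y + q 0) :: r
  | .forkL, x :: y :: r => G.take i ++ (x + q 3) :: q 2 :: q 1 :: (y + q 0) :: r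
  | .forkR, x :: y :: r => G.take i ++ (x + q 0) :: q 3 :: q 2 :: (y + q 1) :: r
  | .joinL, x :: _ :: _ :: y :: r => G.take i ++ (x + q 3) :: (y + q 2) :: r
  | .joinR, x :: _ :: _ :: y :: r => G.take i ++ (x + q 2) :: (y + q 1) :: r
  | _, _ => []

/-- The angle sums of the regions which end at the vertex. -/
def ended (s : Shape) (i : ℕ) (q : Fin 4 → ℝ) (G : List ℝ) : List ℝ :=
  match s, G.drop i with
  | .vert, _ :: g :: _ => [g + q 0]
  | .hor, _ :: g :: _ => [g + q 3]
  | .joinL, _ :: g :: h :: _ => [g + q 0, h + q 1]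
  | .joinR, _ :: g :: h :: _ => [g + q 3, h + q 0]
  | _, _ => []

/-- `a k j` is the angle number `j` of the vertex number `k`.  The two triangles of each vertex have
the angle sum `1 / 2`, each region which ends at a vertex has the angle sum `1`, and the two outer
regions have the angle sum `0`; `G` are the angle sums in the gaps at the bottom. -/
def IsAngles : (D : List Vertex) → (Fin D.length → Fin 6 → ℝ) → List ℝ → Prop
  | [], _, G => G = [0, 0]
  | P :: D, a, G => a 0 0 + a 0 1 + a 0 2 = 1 / 2 ∧ a 0 3 + a 0 4 + a 0 5 = 1 / 2 ∧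
      (∀ c ∈ ended P.shape P.pos (corner (a 0)) G, c = 1) ∧
      IsAngles D (fun k => a k.succ) (gaps P.shape P.pos (corner (a 0)) G)

/-- The angle structures of a diagram with one strand at the bottom and at the top. -/
def Angles (D : List Vertex) : Set (Fin D.length → Fin 6 → ℝ) :=
  {a | IsAngles D a [0, 0] ∧ ∀ k j, 0 ≤ a k j}

/-- The corner of a vertex which lies in the gap on its left. -/
def Shape.left : Shape → Fin 4
  | .vert => 3
  | .hor => 2
  | .forkL => 3
  | .forkR => 0
  | .joinL => 3
  | .joinR => 2

/-- The corner of a vertex which lies in the gap on its right. -/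
def Shape.right : Shape → Fin 4
  | .vert => 1
  | .hor => 0
  | .forkL => 0
  | .forkR => 1
  | .joinL => 2
  | .joinR => 1

/-- `Outer D n k c`: the corner `c` of the vertex number `k` of `D` lies in the region on the left or
on the right of the diagram `D` with `n` strands at the bottom. -/
def Outer : (D : List Vertex) → ℕ → Fin D.length → Fin 4 → Prop
  | [], _, _, _ => False
  | P :: D, n, k, c => Fin.cases (motive := fun _ => Prop)
      ((P.pos = 0 ∧ c = P.shape.left) ∨ (P.pos + P.shape.below = n ∧ c = P.shape.right))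
      (fun k' => Outer D (P.shape.above n) k' c) k

/-- `p` is a positive angle structure: all angles which are not in the outer regions are positive. -/
def Positive (D : List Vertex) (p : Fin D.length → Fin 6 → ℝ) : Prop :=
  p ∈ Angles D ∧ ∀ k j, ¬ Outer D 1 k (cornerOf j) → 0 < p k j

/-- Lobachevsky's function `Λ(x) = -∫_0^x log |2 sin t| dt`. -/
noncomputable def Lob (x : ℝ) : ℝ := -∫ t in (0 : ℝ)..x, Real.log |2 * Real.sin t|

/-- The volume of the link complement of a fully augmented link: the maximum of the volumes of the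
angle structures. -/
noncomputable def vol (D : List Vertex) : ℝ :=
  sSup ((fun a : Fin D.length → Fin 6 → ℝ =>
    ∑ k, ∑ j, 2 * (Lob (Real.pi * a k j) + Lob (Real.pi / 2 - Real.pi * a k j))) '' Angles D)

/-- The number of all crossings in the twist regions, counted with their signs. -/
def signed : List Vertex → ℤ
  | [] => 0
  | P :: D => (if P.sign then 1 else -1) * P.num + signed D

/-- The Chern-Simons invariant (modulo `π^2`): `- π^2 / 2` for each positive crossing. -/
noncomputable def cs (D : List Vertex) : ℝ := -(Real.pi ^ 2 / 2) * signed D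

/-! ### Checks of the definitions (not part of the result) -/

/-- the elementary parts of the library -/
def toQ : Elem → Pool.Agent.W709.QAT.Piece
  | .cup i => .cup i
  | .cap i => .cap i
  | .twist i σ m => .twist i σ m

/-- For `N = 2` the crossings satisfy the skein relation of the Jones polynomial. -/
theorem skein (v : ℂ) (hv : v ≠ 0) (h1 : br v 1 ≠ 0) :
    v ^ 2 • crossP 2 v - (v ^ 2)⁻¹ • crossN 2 v =
      (v - v⁻¹) • (1 : Matrix (Fin 2 × Fin 2) (Fin 2 × Fin 2) ℂ) :=
  Pool.Agent.H550R3.Jones.taskSanSkein v hv h1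

/-- The two crossings are inverse to each other. -/
theorem cross_inverse (N : ℕ) (v : ℂ) (hv : v ≠ 0)
    (h : ∀ k : ℕ, 0 < k → k < N → br v k ≠ 0) :
    crossP N v * crossN N v = 1 ∧ crossN N v * crossP N v = 1 :=
  Pool.Agent.H309R4.Jones.SanI.taskSanInv Pool.Agent.H345J.taskMod Pool.Agent.H345J.taskInv
    Pool.Agent.H559R3.J.taskCross N v ⟨hv, h⟩

/-- Curls may be removed: the framing is normalised. -/
theorem curl (N : ℕ) (v : ℂ) (hv : v ≠ 0) (h : ∀ k : ℕ, 0 < k → k < N → br v k ≠ 0) :
    (fun i j => ∑ x : Fin N, v ^ ((N : ℤ) - 1 - 2 * (x : ℕ)) * crossP N v (i, x) (j, x)) =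
      (1 : Matrix (Fin N) (Fin N) ℂ) ∧
    (fun i j => ∑ x : Fin N, v ^ ((N : ℤ) - 1 - 2 * (x : ℕ)) * crossN N v (i, x) (j, x)) =
      (1 : Matrix (Fin N) (Fin N) ℂ) :=
  Pool.Agent.H105R3.JSan.taskSanCurl N v ⟨hv, h⟩

lemma act_eq {N : ℕ} {v : ℂ} : ∀ (P : Elem) (f : List (Fin N) → ℂ), P.act N v f =
    Pool.Agent.W709.QAT.Piece.act N v (toQ P) f
  | .cup _, _ => rfl
  | .cap _, _ => rfl
  | .twist _ _ _, _ => rfl

lemma run_eq {N : ℕ} {v : ℂ} : ∀ (D : List Elem) (f : List (Fin N) → ℂ), run N v D f =
    Pool.Agent.W709.QAT.run N v (D.map toQ) f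
  | [], _ => rfl
  | P :: D, f => by
    show run N v D (P.act N v f) = Pool.Agent.W709.QAT.run N v (D.map toQ) _
    rw [run_eq D, act_eq]

/-- Straightening a strand. -/
theorem zigzag (N : ℕ) (v : ℂ) (hv : v ≠ 0) (h : ∀ k : ℕ, 0 < k → k < N → br v k ≠ 0)
    (f : List (Fin N) → ℂ) (i : ℕ) (s : List (Fin N)) (hi : i < s.length) :
    run N v [.cup (i + 1), .cap i] f s = f s ∧ run N v [.cup i, .cap (i + 1)] f s = f s := by
  rw [run_eq, run_eq]
  exact Pool.Agent.W591.QAT.zz N v hv h f i s hi

/-- The third Reidemeister move. -/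
theorem reidemeister (N : ℕ) (v : ℂ) (hv : v ≠ 0) (h : ∀ k : ℕ, 0 < k → k < N → br v k ≠ 0)
    (f : List (Fin N) → ℂ) (i : ℕ) (s : List (Fin N)) (hi : i + 3 ≤ s.length) :
    run N v [.twist i true 1, .twist (i + 1) true 1, .twist i true 1] f s =
      run N v [.twist (i + 1) true 1, .twist i true 1, .twist (i + 1) true 1] f s := by
  rw [run_eq, run_eq]
  exact (Pool.Agent.W591.QAT.reid N v hv h f i s).2 hi

/-- The unknot (no vertices) has the invariant `1`. -/
theorem unknot (N : ℕ) (hN : 0 < N) (v : ℂ) : jones N [] v = 1 := by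
  simp [jones, link, run, hN]

/-- The Borromean rings: two vertices without crossings. -/
def borromean : List Vertex := [⟨.forkR, 0, true, 0⟩, ⟨.joinL, 0, true, 0⟩]

/-- The angle structures of the Borromean rings. -/
noncomputable def borAng (t : ℝ) : Fin 2 → Fin 6 → ℝ :=
  ![![0, 0, 1 / 2, t, 0, 1 / 2 - t], ![t, 1 / 2 - t, 0, 0, 1 / 2, 0]]

/-- The Borromean rings satisfy the assumptions of the theorem. -/
theorem borromean_check : IsDiagram borromean 1 ∧ Reduced borromean 1 ∧ borromean ≠ [] ∧
    Positive borromean (borAng (1 / 4)) := by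
  refine ⟨?_, ?_, ?_, ?_, ?_⟩
  · simp [borromean, IsDiagram, Shape.below, Shape.above]
  · simp [borromean, Reduced, Shape.above]
  · simp [borromean]
  · refine ⟨⟨?_, ?_, ?_, ?_, ?_, ?_, ?_⟩, ?_⟩
    · show (0 : ℝ) + 0 + 1 / 2 = 1 / 2
      norm_num
    · show (1 / 4 : ℝ) + 0 + (1 / 2 - 1 / 4) = 1 / 2
      norm_num
    · intro c hc
      cases hc
    · show (1 / 4 : ℝ) + (1 / 2 - 1 / 4) + 0 = 1 / 2
      norm_num
    · show (0 : ℝ) + 1 / 2 + 0 = 1 / 2
      norm_num
    · intro c hc
      have hc' : c ∈ [(1 / 2 + (1 / 2 - 1 / 4) : ℝ) + 1 / 4, 1 / 4 + ((1 / 2 - 1 / 4) + 1 / 2)] := hc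
      simp only [List.mem_cons, List.not_mem_nil, or_false] at hc'
      rcases hc' with rfl | rfl <;> norm_num
    · show [(0 : ℝ) + 0 + (0 + 0), 0 + (0 + 0) + 0] = [0, 0]
      norm_num
    · intro k j
      fin_cases k <;> fin_cases j <;>
        first
          | exact le_of_eq (show (0 : ℝ) = 0 from rfl)
          | exact (show (0 : ℝ) ≤ 1 / 2 by norm_num)
          | exact (show (0 : ℝ) ≤ 1 / 4 by norm_num)
          | exact (show (0 : ℝ) ≤ 1 / 2 - 1 / 4 by norm_num)
  · intro k j hk
    fin_cases k <;> fin_cases j <;>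
      first
        | exact absurd (Or.inl ⟨rfl, rfl⟩) hk
        | exact absurd (Or.inr ⟨rfl, rfl⟩) hk
        | exact (show (0 : ℝ) < 1 / 2 by norm_num)
        | exact (show (0 : ℝ) < 1 / 4 by norm_num)
        | exact (show (0 : ℝ) < 1 / 2 - 1 / 4 by norm_num)

/-! ### Comparison with the library -/

open Pool.Agent.Q99.FAL (Pc Ty)

/-- the shapes of the library -/
def toT : Shape → Ty
  | .vert => .V
  | .hor => .H
  | .forkL => .YL
  | .forkR => .YR
  | .joinL => .LL
  | .joinR => .LR

/-- the vertices of the library -/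
def toP (P : Vertex) : Pc := ⟨toT P.shape, P.pos, P.sign, P.num⟩

lemma wd_eq (s : Shape) : Pool.Agent.Q99.FAL.wd (toT s) = s.below := by cases s <;> rfl

lemma up_eq (s : Shape) (n : ℕ) : Pool.Agent.Q99.FAL.up (toT s) n = s.above n := by
  cases s <;> rfl

lemma els_eq : ∀ P : Vertex, P.elems.map toQ = Pool.Agent.Q99.FAL.els (toP P)
  | ⟨.vert, _, _, _⟩ => rfl
  | ⟨.hor, _, _, _⟩ => rfl
  | ⟨.forkL, _, _, _⟩ => rfl
  | ⟨.forkR, _, _, _⟩ => rfl
  | ⟨.joinL, _, _, _⟩ => rfl
  | ⟨.joinR, _, _, _⟩ => rfl

lemma link_eq : ∀ D : List Vertex,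
    (link D).map toQ = (D.map toP).flatMap Pool.Agent.Q99.FAL.els
  | [] => rfl
  | P :: D => by
    have h := link_eq D
    unfold link at h ⊢
    rw [List.flatMap_cons, List.map_append, List.map_cons, List.flatMap_cons, h, els_eq]

lemma val_eq : ∀ (D : List Vertex) (n : ℕ), IsDiagram D n →
    Pool.Agent.Q99.FAL.Val (D.map toP) n
  | [], _, h => h
  | P :: D, n, h => by
    refine ⟨?_, ?_⟩
    · have := h.1
      rw [← wd_eq] at this
      exact this
    · have := val_eq D _ h.2
      rw [← up_eq] at this
      exact this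

lemma pri_eq : ∀ (D : List Vertex) (n : ℕ), Reduced D n →
    Pool.Agent.Q99.FAL.Pri (D.map toP) n
  | [], _, h => h
  | P :: D, n, h => by
    refine ⟨?_, ?_⟩
    · rcases h.1 with h1 | h1
      · exact Or.inl (by rw [h1]; rfl)
      · rw [← up_eq] at h1
        exact Or.inr h1
    · have := pri_eq D _ h.2
      rw [← up_eq] at this
      exact this

/-- an angle structure as one of the library -/
def cv (D : List Vertex) (a : Fin D.length → Fin 6 → ℝ) : Fin (D.map toP).length → Fin 6 → ℝ :=
  fun k => a (k.cast (List.length_map _))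

/-- and back -/
def cb (D : List Vertex) (a : Fin (D.map toP).length → Fin 6 → ℝ) : Fin D.length → Fin 6 → ℝ :=
  fun k => a (k.cast (List.length_map _).symm)

lemma cv_cb (D : List Vertex) (a : Fin (D.map toP).length → Fin 6 → ℝ) : cv D (cb D a) = a := rfl

lemma cor_eq (x : Fin 6 → ℝ) : Pool.Agent.Q99.FAL.cor x = corner x := rfl

lemma stp_eq (s : Shape) (i : ℕ) (q : Fin 4 → ℝ) (G : List ℝ) :
    Pool.Agent.Q99.FAL.stp (toT s) i q G = gaps s i q G := by
  cases s <;> unfold Pool.Agent.Q99.FAL.stp gaps <;>
    rcases G.drop i with _ | ⟨x, _ | ⟨y, _ | ⟨z, _ | ⟨w, r⟩⟩⟩⟩ <;> rfl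

lemma cls_eq (s : Shape) (i : ℕ) (q : Fin 4 → ℝ) (G : List ℝ) :
    Pool.Agent.Q99.FAL.cls (toT s) i q G = ended s i q G := by
  cases s <;> unfold Pool.Agent.Q99.FAL.cls ended <;>
    rcases G.drop i with _ | ⟨x, _ | ⟨y, _ | ⟨z, r⟩⟩⟩ <;> rfl

lemma sol_eq : ∀ (D : List Vertex) (a : Fin D.length → Fin 6 → ℝ) (G : List ℝ),
    IsAngles D a G ↔ (Pool.Agent.Q99.FAL.Sol (D.map toP) (cv D a) G 1 ∧
      ∀ k, Pool.Agent.Q99.FAL.n1 (a k) = 1 / 2)
  | [], a, G => ⟨fun h => ⟨h, fun k => k.elim0⟩, fun h => h.1⟩
  | P :: D, a, G => by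
    have ih := sol_eq D (fun k => a k.succ) (gaps P.shape P.pos (corner (a 0)) G)
    constructor
    · rintro ⟨h1, h2, h3, h4⟩
      obtain ⟨h5, h6⟩ := ih.1 h4
      refine ⟨⟨?_, ?_, ?_⟩, ?_⟩
      · show (a 0 0 + a 0 1 + a 0 2) + (a 0 3 + a 0 4 + a 0 5) = 1
        rw [h1, h2]
        norm_num
      · show ∀ c ∈ Pool.Agent.Q99.FAL.cls (toT P.shape) P.pos (corner (a 0)) G, c = 1
        rw [cls_eq]
        exact h3
      · show Pool.Agent.Q99.FAL.Sol (D.map toP) (cv D fun k => a k.succ)
          (Pool.Agent.Q99.FAL.stp (toT P.shape) P.pos (corner (a 0)) G) 1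
        rw [stp_eq]
        exact h5
      · intro k
        refine Fin.cases ?_ (fun k => ?_) k
        · exact h1
        · exact h6 k
    · rintro ⟨⟨h1, h2, h3⟩, h4⟩
      have h1' : (a 0 0 + a 0 1 + a 0 2) + (a 0 3 + a 0 4 + a 0 5) = 1 := h1
      have h0 : a 0 0 + a 0 1 + a 0 2 = 1 / 2 := h4 0
      have h2' : ∀ c ∈ Pool.Agent.Q99.FAL.cls (toT P.shape) P.pos (corner (a 0)) G, c = 1 := h2
      have h3' : Pool.Agent.Q99.FAL.Sol (D.map toP) (cv D fun k => a k.succ)
          (Pool.Agent.Q99.FAL.stp (toT P.shape) P.pos (corner (a 0)) G) 1 := h3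
      rw [cls_eq] at h2'
      rw [stp_eq] at h3'
      exact ⟨h0, by linarith, h2', ih.2 ⟨h3', fun k => h4 k.succ⟩⟩

lemma out_eq : ∀ (D : List Vertex) (n : ℕ) (k : Fin (D.map toP).length) (c : Fin 4),
    Pool.Agent.Q99.FAL.Out (D.map toP) n k c ↔ Outer D n (k.cast (List.length_map _)) c
  | [], _, k, _ => k.elim0
  | P :: D, n, k, c => by
    refine Fin.cases ?_ (fun k => ?_) k
    · show ((P.pos = 0 ∧ c = Pool.Agent.Q99.FAL.lc (toT P.shape)) ∨
        (P.pos + Pool.Agent.Q99.FAL.wd (toT P.shape) = n ∧
          c = Pool.Agent.Q99.FAL.rc (toT P.shape))) ↔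
        ((P.pos = 0 ∧ c = P.shape.left) ∨ (P.pos + P.shape.below = n ∧ c = P.shape.right))
      cases P.shape <;> exact Iff.rfl
    · show Pool.Agent.Q99.FAL.Out (D.map toP) (Pool.Agent.Q99.FAL.up (toT P.shape) n) k c ↔
        Outer D (P.shape.above n) (k.cast (List.length_map _)) c
      rw [up_eq]
      exact out_eq D _ k c

lemma angles_eq (D : List Vertex) (a : Fin D.length → Fin 6 → ℝ) :
    a ∈ Angles D ↔ cv D a ∈ Pool.Agent.Q99.FAL.AS (D.map toP) := by
  constructor
  · rintro ⟨h1, h2⟩
    obtain ⟨h3, h4⟩ := (sol_eq D a [0, 0]).1 h1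
    exact ⟨h3, fun k => h4 _, fun k i => h2 _ i⟩
  · rintro ⟨h1, h2, h3⟩
    exact ⟨(sol_eq D a [0, 0]).2 ⟨h1, fun k => h2 (k.cast (List.length_map _).symm)⟩,
      fun k i => h3 (k.cast (List.length_map _).symm) i⟩

lemma pos_eq (D : List Vertex) (p : Fin D.length → Fin 6 → ℝ) (h : Positive D p) :
    Pool.Agent.Q99.FAL.Pos (D.map toP) (cv D p) := by
  have h1 := (angles_eq D p).1 h.1
  refine ⟨h1.1, h1.2.1, h1.2.2, fun k i hk => h.2 _ i fun ho => hk ?_⟩
  exact (out_eq D 1 k _).2 ho

lemma lob_eq (x : ℝ) : Lob x = GapVol.lob x := rfl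

lemma hh_eq (x : ℝ) : 2 * (Lob (Real.pi * x) + Lob (Real.pi / 2 - Real.pi * x)) =
    2 * Real.pi * Pool.Agent.Q99.FAL.hh x := by
  have e : Real.pi / 2 - Real.pi * x = Real.pi * (1 / 2 - x) := by ring
  rw [e, lob_eq, lob_eq, Pool.Agent.Q151.FW.lob_LL, Pool.Agent.Q151.FW.lob_LL,
    Pool.Agent.Q99.FAL.hh]
  ring

lemma vol_eq (D : List Vertex) : vol D = 2 * Real.pi *
    sSup (Pool.Agent.Q99.FAL.fV '' Pool.Agent.Q99.FAL.AS (D.map toP)) := by
  have hpi := Real.pi_pos
  have e : ∀ a : Fin D.length → Fin 6 → ℝ,
      ∑ k, ∑ j, 2 * (Lob (Real.pi * a k j) + Lob (Real.pi / 2 - Real.pi * a k j)) =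
      2 * Real.pi * Pool.Agent.Q99.FAL.fV (cv D a) := by
    intro a
    unfold Pool.Agent.Q99.FAL.fV
    rw [Finset.mul_sum, ← (finCongr (List.length_map (as := D) toP)).sum_comp]
    refine Finset.sum_congr rfl fun k _ => ?_
    rw [Finset.mul_sum]
    exact Finset.sum_congr rfl fun j _ => hh_eq _
  have h1 : ((fun a : Fin D.length → Fin 6 → ℝ =>
      ∑ k, ∑ j, 2 * (Lob (Real.pi * a k j) + Lob (Real.pi / 2 - Real.pi * a k j))) ''
        Angles D) = (2 * Real.pi) •
          (Pool.Agent.Q99.FAL.fV '' Pool.Agent.Q99.FAL.AS (D.map toP)) := by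
    ext y
    constructor
    · rintro ⟨a, ha, rfl⟩
      exact ⟨_, ⟨cv D a, (angles_eq D a).1 ha, rfl⟩, (e a).symm⟩
    · rintro ⟨_, ⟨a, ha, rfl⟩, rfl⟩
      refine ⟨cb D a, (angles_eq D _).2 (by rw [cv_cb]; exact ha), ?_⟩
      show ∑ k, ∑ j, 2 * (Lob (Real.pi * cb D a k j) + Lob (Real.pi / 2 - Real.pi * cb D a k j)) = _
      rw [e, cv_cb]
      rfl
  unfold vol
  rw [h1, Real.sSup_smul_of_nonneg (by positivity), smul_eq_mul]

/-! ### Continuity -/

theorem jones_cont (D : List Vertex) (N : ℕ) (hN1 : 1 ≤ N) :
    ContinuousAt (jones N D) (root N) := by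
  have hN : 0 < N := hN1
  have h : jones N D = fun v => Pool.Agent.W709.QAT.run N v ((link D).map toQ)
        (fun l => if l = [⟨0, hN⟩] then 1 else 0) [⟨0, hN⟩] := by
    funext v
    unfold jones
    rw [dif_pos hN, run_eq]
  rw [h]
  have h0 : root N ≠ 0 := Complex.exp_ne_zero _
  exact Pool.Agent.W613.QAT.run_cont h0
    (fun k hk hkN => Pool.Agent.W613.QAT.br_rt k hk hkN) hN1
      _ (fun _ l => if l = [⟨0, hN⟩] then 1 else 0) (fun s => continuousAt_const) _

lemma root_eq (N : ℕ) : root N = Pool.Agent.W715.VC.rt N := rfl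

lemma fun_zero {N : ℕ} (h : 0 < N) :
    (fun l : List (Fin N) => if l.map (fun x => (x : ℕ)) = [0] then (1 : ℂ) else 0) =
      fun l => if l = [⟨0, h⟩] then 1 else 0 := Pool.Agent.Q224.FAL.fun_zero h

lemma signed_eq : ∀ D : List Vertex, Pool.Agent.Q99.FP2.wD (D.map toP) = signed D
  | [] => by simp [signed, Pool.Agent.Q99.FP2.wD]
  | P :: D => by
    have h := signed_eq D
    show (Pool.Agent.Q191.LB.sg P.sign : ℝ) * P.num + Pool.Agent.Q99.FP2.wD (D.map toP) = _
    rw [h, signed]
    unfold Pool.Agent.Q191.LB.sg
    push_cast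
    rfl

lemma asym (D : List Vertex) (h1 : IsDiagram D 1) (h2 : Reduced D 1) (h3 : D ≠ [])
    (h4 : ∃ p, Positive D p) : ∃ y : ℕ → ℂ, y 0 ≠ 0 ∧ Pool.Agent.Q99.HX.Xp (fun N : ℕ =>
      kashaev D N / (N * √N * Complex.exp (N * ((vol D + cs D * Complex.I) / (2 * Real.pi))))) y := by
  obtain ⟨p, hp⟩ := h4
  obtain ⟨y, hy, h⟩ := Pool.Agent.Q99.XF.exF (D.map toP) (val_eq D 1 h1) (pri_eq D 1 h2)
    (by simpa using h3) ⟨_, pos_eq D p hp⟩
  have hpi : (Real.pi : ℂ) ≠ 0 := by exact_mod_cast Real.pi_pos.ne'
  have hv : ((vol D : ℂ) + cs D * Complex.I) / (2 * Real.pi) =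
      ((sSup (Pool.Agent.Q99.FAL.fV '' Pool.Agent.Q99.FAL.AS (D.map toP)) : ℝ) +
        Real.pi * (-(Pool.Agent.Q99.FP2.wD (D.map toP)) / 4 : ℝ) * Complex.I) := by
    rw [vol_eq, signed_eq, cs]
    push_cast
    field_simp
    ring
  refine ⟨y, hy, Pool.Agent.Q99.HX.Xp.congr' h ?_⟩
  filter_upwards [eventually_ge_atTop 1] with N hN
  have hN0 : 0 < N := hN
  rw [hv]
  congr 1
  unfold kashaev jones
  rw [dif_pos hN0, dif_pos hN0, run_eq, link_eq, fun_zero hN0, root_eq]

lemma asymF (D : List Vertex) (h1 : IsDiagram D 1) (h2 : Reduced D 1) (h3 : D ≠ [])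
    (h4 : ∃ p, Positive D p) (e f : ℤ) : ∃ u : ℕ → ℂ, u 0 ≠ 0 ∧
    Pool.Agent.Q99.HX.Xp (fun N : ℕ => framed e f D N / (N * √N * Complex.exp (N *
      ((vol D + cs D * Complex.I) / (2 * Real.pi) + Real.pi * Complex.I * (e + f))))) u := by
  obtain ⟨y, hy, h⟩ := asym D h1 h2 h3 h4
  obtain ⟨u, hu, g⟩ := Pool.Agent.Q99.HX.xp_framed _ _ y hy h e f
  exact ⟨u, hu, Pool.Agent.Q99.HX.Xp.congr' g (Eventually.of_forall fun N => rfl)⟩

/-- **Ratios of the Kashaev invariants of fully augmented links, to all orders.** -/
theorem result (D : List Vertex) (h1 : IsDiagram D 1) (h2 : Reduced D 1) (h3 : D ≠ [])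
    (h4 : ∃ p, Positive D p) :
    (∀ N : ℕ, 1 ≤ N → ContinuousAt (jones N D) (root N)) ∧
    ∀ e f : ℤ, (∀ᶠ n : ℕ in atTop, framed e f D n ≠ 0) ∧
      ∃ (c : ℕ → ℂ) (k : ℕ → ℤ), c 0 = vol D + cs D * Complex.I ∧ c 1 = 3 * Real.pi ∧
        ∀ K : ℕ, ∃ B : ℝ, ∀ᶠ n : ℕ in atTop,
          ‖Real.pi * Complex.log (framed e f D (n + 2) / framed e f D n) +
            k n * (Real.pi ^ 2 * Complex.I) - ∑ j ∈ range K, c j / (n : ℂ) ^ j‖ ≤
              B / (n : ℝ) ^ K := by
  refine ⟨fun N hN => jones_cont D N hN, fun e f => ?_⟩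
  obtain ⟨u, hu, hX⟩ := asymF D h1 h2 h3 h4 e f
  obtain ⟨q1, c, k, c0, c1, q2⟩ := Pool.Agent.Q99.XF.xp_ratio_all _ _ u hu hX
  have hpi : (Real.pi : ℂ) ≠ 0 := by exact_mod_cast Real.pi_pos.ne'
  have g := Pool.Agent.Q99.XF.Xp.add' q2
    (Pool.Agent.Q99.HX.Xp.const (-(2 * (e + f) * (Real.pi ^ 2 * Complex.I))))
  refine ⟨q1, fun j => c j + if j = 0 then -(2 * (e + f) * (Real.pi ^ 2 * Complex.I)) else 0,
    fun n => k n - 2 * (e + f), ?_, ?_, fun K => ?_⟩
  · simp only [if_true]
    rw [c0]
    field_simp
    ring
  · simp only [one_ne_zero, if_false, add_zero]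
    exact c1
  · obtain ⟨B, hB⟩ := g K
    refine ⟨B, hB.mono fun n hn => ?_⟩
    convert hn using 3
    push_cast
    ring

end Pool.Agent.Results.MP_b30479_gt.FullyAugmentedRatios
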