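import Pool.Agent.Q99.VC.Half
import Pool.Agent.TH563.UB.ArbU

/-!
# The volume conjecture is not uniform along odd `N`

Let `L_a` be the arborescent link of a weighted planar tree with the weight `a` at the root: the
number of half twists of one band is `a`, the others are fixed.  For `|a| → ∞` the hyperbolic volume
`vol(L_a)` converges to the volume of the link together with the crossing circle of the root, so it
is bounded and the number of twist regions is fixed.  For fixed large `a` the volume conjecture holds
for `L_a`.  We show that it does not hold uniformly in `a`: for `a = N` odd, or `a = b + k N` with `k`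
odd, the invariant `|J_N(L_a)|` at `q = e^(2 π i / N)` is exponentially smaller than
`exp (N vol(L_a) / 2 π)`.

The definitions (weighted planar trees, the coloured Jones polynomial of the arborescent link of a
tree from the R-matrix of `U_q(sl_2)`, angle structures of its complement and their volume) are in
`Pool.Agent.TH563.UV.Arb`; those of `edges` and `octahedron` are in `Pool.Agent.TH563.UB.ArbU`.
-/

set_option autoImplicit false

namespace Pool.Agent.Results.MP_b30479_gt.NotUniform

open Finset Filter Topology Pool.Agent.TH563.UV.Arb Pool.Agent.TH563.UB.Arb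

/-- The tree with the weight of the root replaced by `a`. -/
def twist (a : ℤ) : Tree → Tree
  | .single b _ => .single b a
  | .join t c => .join (twist a t) c

/-- The list of the pairs (number of neighbours, weight) of the vertices other than the root. -/
def others : Tree → List (ℕ × ℤ)
  | .single _ _ => []
  | .join t c => others t ++ (c.children + 1, c.weight) :: others c

/-- The number `∑ n / (n^2 + b^2)` of a list of pairs `(n, b)`. -/
noncomputable def slopeSum (l : List (ℕ × ℤ)) : ℝ :=
  (l.map fun p => (p.1 : ℝ) / ((p.1 : ℝ) ^ 2 + (p.2 : ℝ) ^ 2)).sum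

/-- The sum of the absolute values of the weights of a list of pairs (number of neighbours,
weight). -/
noncomputable def totalWeight (l : List (ℕ × ℤ)) : ℝ := (l.map fun p => |(p.2 : ℝ)|).sum

section Conversion

open Pool.Agent.W719.AR (Tr)

lemma free_twist (a : ℤ) (t : Tree) (h : t.Free) : (twist a t).Free := by
  induction t with
  | single b a => exact h
  | join t c ht _ => exact ⟨ht h.1, h.2⟩

lemma children_twist (a : ℤ) (t : Tree) : (twist a t).children = t.children := by
  induction t with
  | single b a => rfl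
  | join t c ht _ => simp only [twist, Tree.children, ht]

lemma weight_twist (a : ℤ) (t : Tree) : (twist a t).weight = a := by
  induction t with
  | single b a => rfl
  | join t c ht _ => simp only [twist, Tree.weight, ht]

lemma others_twist (a : ℤ) (t : Tree) : others (twist a t) = others t := by
  induction t with
  | single b a => rfl
  | join t c ht _ => simp only [twist, others, ht]

lemma edges_twist (a : ℤ) (t : Tree) : edges (twist a t) = edges t := by
  induction t with
  | single b a => rfl
  | join t c ht _ => simp only [twist, edges, ht]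

lemma children_to (t : Tree) : (toTr t).nc = t.children := by
  induction t with
  | single b a => rfl
  | join t c ht hc => simp only [toTr, Tr.nc, Tree.children, ht]

lemma weight_to (t : Tree) : (toTr t).wt = t.weight := by
  induction t with
  | single b a => rfl
  | join t c ht hc => simp only [toTr, Tr.wt, Tree.weight, ht]

lemma edges_to (t : Tree) : Pool.Agent.Q99.VC.ne (toTr t) = edges t := by
  induction t with
  | single b a => rfl
  | join t c ht hc => simp only [toTr, Pool.Agent.Q99.VC.ne, edges, ht, hc, add_assoc]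

lemma others_to (t : Tree) : Pool.Agent.Q99.VC.others (toTr t) = others t := by
  induction t with
  | single b a => rfl
  | join t c ht hc =>
    simp only [toTr, Pool.Agent.Q99.VC.others, others, ht, hc, children_to, weight_to]

lemma oct_bet : 2 * Pool.Agent.W711.HT.bet = 2 * octahedron / (2 * Real.pi) := by
  rw [oct_eq, ← Pool.Agent.TH563.UB.bet_v8]
  have := Real.pi_pos
  field_simp

lemma heavy_of {M : ℕ} (t : Tree) (h : (M : ℤ) ≤ |t.weight|)
    (h' : ∀ p ∈ others t, (M : ℤ) ≤ |p.2|) : Heavy M t := by
  induction t with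
  | single b a => exact Or.inr h
  | join t c ht hc =>
    have h1 : ∀ p ∈ others t, (M : ℤ) ≤ |p.2| := fun p hp => h' p (by
      simp only [others, List.mem_append]; exact Or.inl hp)
    have h2 : ∀ p ∈ others c, (M : ℤ) ≤ |p.2| := fun p hp => h' p (by
      simp only [others, List.mem_append, List.mem_cons]; exact Or.inr (Or.inr hp))
    have h3 : (M : ℤ) ≤ |c.weight| := h' (c.children + 1, c.weight) (by simp [others])
    exact ⟨ht h h1, hc h3 h2⟩

lemma norm_free (t : Tree) (h : t.Free) (e f : ℤ) (N : ℕ) : ‖kashaev e f t N‖ =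
    ‖Pool.Agent.W719.AR.jt (toTr t) N (Pool.Agent.W711.HT.vN N)‖ := by
  rw [Pool.Agent.TH563.Z.Arb.norm_kashaev, jones_to, jt_free t h]
  rfl

lemma slope_nonneg (l : List (ℕ × ℤ)) : 0 ≤ slopeSum l := by
  unfold slopeSum
  refine List.sum_nonneg fun x hx => ?_
  obtain ⟨p, _, rfl⟩ := List.mem_map.1 hx
  positivity

end Conversion

/-- **The volume conjecture is not uniform along odd `N`.**  There is an absolute constant `δ > 0`
such that the following holds.  Let `t` be a weighted planar tree without crossing circles, with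
`E ≥ 1` edges, let `n ≥ 1` be the number of neighbours of the root, and let `L_a` be the arborescent
link obtained by changing the weight of the root to `a`.
(0) The coloured Jones polynomial is continuous at `v_N`, so that `kashaev e f t N` is its value at
`q = e^(2 π i / N)` in the usual sense.
(1) For every `ε > 0` there is an `N₀`, which does not depend on the tree and its weights, such that
for all odd `N ≥ N₀`, all integers `b` and all odd `k`
`|J_N(L_{b + k N})| ≤ (1 + 2 |k| N) exp ((|b| + ∑' |a_x|) / 2 +
(N / 2 π) ((2 v_8 + ε) E - δ n / (n^2 + b^2) - δ ∑' n_x / (n_x^2 + a_x^2)))`,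
the sums being over the vertices other than the root.
(2) For all `m` and `B` there is an `M` such that, if `E ≤ m` and the weights of the vertices other
than the root have absolute value at least `M`, then for all `a` with `|a| ≥ M` the volume functional
of the link `L_a` has a maximum `V(a) ≤ 2 v_8 E` over the angle structures (by Casson and Rivin this
is the hyperbolic volume of its complement), the volume conjecture `2 π log |J_N(L_a)| / N → V(a)`
holds for `L_a`, and nevertheless for all `b` with `|b| ≤ B` and all odd `k`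
`|J_N(L_{b + k N})| ≤ exp ((N / 2 π) (V(b + k N) - δ n / (n^2 + b^2)))` for all large odd `N`.
For instance `|J_N(L_N)| ≤ exp ((N / 2 π) (V(N) - δ / n))` for all large odd `N`. -/
theorem result : ∃ δ : ℝ, 0 < δ ∧
    (∀ (t : Tree) (N : ℕ), ContinuousAt (jones t N) (root N)) ∧
    (∀ ε : ℝ, 0 < ε → ∃ N₀ : ℕ, ∀ N : ℕ, N₀ ≤ N → Odd N → ∀ t : Tree, t.Free → 1 ≤ t.children →
      ∀ b k : ℤ, Odd k → ∀ e f : ℤ,
        ‖kashaev e f (twist (b + k * N) t) N‖ ≤ (1 + 2 * |(k : ℝ)| * N) *
          Real.exp ((|(b : ℝ)| + totalWeight (others t)) / 2 +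
            N / (2 * Real.pi) * ((2 * octahedron + ε) * edges t -
              δ * slopeSum ((t.children, b) :: others t)))) ∧
    ∀ m B : ℕ, ∃ M : ℕ, ∀ t : Tree, t.Free → 1 ≤ t.children → edges t ≤ m →
      (∀ p ∈ others t, (M : ℤ) ≤ |p.2|) → ∃ V : ℤ → ℝ,
      (∀ a : ℤ, (M : ℤ) ≤ |a| → V a ≤ 2 * octahedron * edges t ∧
        IsGreatest {W : ℝ | ∃ y : AngleTree, y.tree = twist a t ∧ IsAngle y ∧ vol y = W} (V a) ∧
        ∀ e f : ℤ, Tendsto (fun N : ℕ => 2 * Real.pi *
          (Real.log ‖kashaev e f (twist a t) N‖ / N)) atTop (𝓝 (V a))) ∧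
      ∀ b k : ℤ, |b| ≤ B → Odd k → ∀ᶠ N : ℕ in atTop, Odd N → (M : ℤ) ≤ |b + k * N| ∧
        ∀ e f : ℤ, ‖kashaev e f (twist (b + k * N) t) N‖ ≤
          Real.exp (N / (2 * Real.pi) * (V (b + k * N) -
            δ * (t.children / ((t.children : ℝ) ^ 2 + (b : ℝ) ^ 2)))) := by
  obtain ⟨c, hc, h⟩ := Pool.Agent.Q99.VC.odd_main
  have hpi := Real.pi_pos
  set δ : ℝ := Real.pi * c with hδ
  have hδ0 : 0 < δ := by positivity
  -- the upper bound with `2 δ`
  have key : ∀ ε : ℝ, 0 < ε → ∃ N₀ : ℕ, ∀ N : ℕ, N₀ ≤ N → Odd N → ∀ t : Tree, t.Free →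
      1 ≤ t.children → ∀ b k : ℤ, Odd k → ∀ e f : ℤ,
        ‖kashaev e f (twist (b + k * N) t) N‖ ≤ (1 + 2 * |(k : ℝ)| * N) *
          Real.exp ((|(b : ℝ)| + totalWeight (others t)) / 2 +
            N / (2 * Real.pi) * ((2 * octahedron + ε) * edges t -
              (2 * δ) * slopeSum ((t.children, b) :: others t))) := by
    intro ε hε
    obtain ⟨N₀, hN₀⟩ := h (ε / (2 * Real.pi)) (by positivity)
    refine ⟨N₀, fun N hN hodd t hf ht b k hk e f => ?_⟩
    rw [norm_free _ (free_twist _ _ hf)]
    refine (hN₀ N hN hodd (toTr (twist (b + k * N) t))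
      (by rw [children_to, children_twist]; exact ht) b k hk
      (by rw [weight_to, weight_twist])).trans ?_
    have hT : 0 ≤ 1 + 2 * |(k : ℝ)| * N := by positivity
    refine mul_le_mul_of_nonneg_left (Real.exp_le_exp.2 ?_) hT
    rw [edges_to, others_to, children_to, oct_bet, children_twist, edges_twist, others_twist]
    apply le_of_eq
    unfold totalWeight slopeSum Pool.Agent.Q99.VC.wts
    rw [hδ]
    field_simp
  refine ⟨δ, hδ0, fun t N => ?_, ?_, ?_⟩
  · rw [jones_to]
    exact Pool.Agent.TH639.J28.cnt _ _
  · intro ε hε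
    obtain ⟨N₀, hN₀⟩ := key ε hε
    refine ⟨N₀, fun N hN hodd t hf ht b k hk e f => ?_⟩
    refine (hN₀ N hN hodd t hf ht b k hk e f).trans ?_
    have hT : 0 ≤ 1 + 2 * |(k : ℝ)| * N := by positivity
    refine mul_le_mul_of_nonneg_left (Real.exp_le_exp.2 ?_) hT
    have h1 := slope_nonneg ((t.children, b) :: others t)
    gcongr
    linarith
  · intro m B
    set D : ℝ := (m : ℝ) ^ 2 + (B : ℝ) ^ 2 + 1 with hD
    have hD0 : 0 < D := by positivity
    set η : ℝ := δ / ((2 * m + 1) * D) with hη
    have hη0 : 0 < η := by positivity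
    obtain ⟨M, hM⟩ := ub_opt η hη0
    obtain ⟨N₀, hN₀⟩ := key η hη0
    refine ⟨M, fun t hf ht hm hoth => ?_⟩
    have hV : ∀ a : ℤ, ∃ V : ℝ, (M : ℤ) ≤ |a| → (2 * octahedron - η) * edges t ≤ V ∧
        V ≤ 2 * octahedron * edges t ∧
        IsGreatest {W : ℝ | ∃ y : AngleTree, y.tree = twist a t ∧ IsAngle y ∧ vol y = W} V ∧
        ∀ e f : ℤ, Tendsto (fun N : ℕ => 2 * Real.pi *
          (Real.log ‖kashaev e f (twist a t) N‖ / N)) atTop (𝓝 V) := by
      intro a
      by_cases ha : (M : ℤ) ≤ |a|
      · obtain ⟨V, h1, h2, h3, h4⟩ := hM (twist a t) (by rw [children_twist]; exact ht)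
          (heavy_of _ (by rw [weight_twist]; exact ha) (by rw [others_twist]; exact hoth))
        rw [edges_twist] at h1 h2
        exact ⟨V, fun _ => ⟨h1, h2, h3, h4⟩⟩
      · exact ⟨0, fun h => absurd h ha⟩
    choose V hV using hV
    refine ⟨V, fun a ha => ⟨(hV a ha).2.1, (hV a ha).2.2.1, (hV a ha).2.2.2⟩, ?_⟩
    intro b k hb hk
    -- the error terms
    have hlim : Tendsto (fun N : ℕ => 2 * Real.pi * (Real.log (1 + 2 * |(k : ℝ)| * N) / N +
        ((|(b : ℝ)| + totalWeight (others t)) / 2) / N)) atTop (𝓝 (2 * Real.pi * (0 + 0))) := by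
      refine Tendsto.const_mul _ (Tendsto.add ?_ (tendsto_const_div_atTop_nhds_zero_nat _))
      have hk1 : (1:ℝ) ≤ |(k : ℝ)| := by
        have : (1:ℤ) ≤ |k| := Int.one_le_abs (by rintro rfl; exact absurd hk (by decide))
        exact_mod_cast this
      have g1 : Tendsto (fun N : ℕ => 1 + 2 * |(k : ℝ)| * N) atTop atTop := by
        refine tendsto_atTop_add_const_left _ _ (Tendsto.const_mul_atTop (by linarith)
          tendsto_natCast_atTop_atTop)
      have g2 : Tendsto (fun x : ℝ => Real.log x / x) atTop (𝓝 0) :=
        Real.isLittleO_log_id_atTop.tendsto_div_nhds_zero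
      have g3 := g2.comp g1
      have g4 : Tendsto (fun N : ℕ => (1 + 2 * |(k : ℝ)| * N) / N) atTop
          (𝓝 (0 + 2 * |(k : ℝ)|)) := by
        have g5 : Tendsto (fun N : ℕ => (1:ℝ) / N + 2 * |(k : ℝ)|) atTop
            (𝓝 (0 + 2 * |(k : ℝ)|)) :=
          (tendsto_const_div_atTop_nhds_zero_nat _).add tendsto_const_nhds
        refine g5.congr' ?_
        filter_upwards [eventually_gt_atTop 0] with N hN
        have : (0:ℝ) < N := by exact_mod_cast hN
        field_simp
      have g6 := g3.mul g4
      rw [zero_mul] at g6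
      refine g6.congr' ?_
      filter_upwards [eventually_gt_atTop 0] with N hN
      have h1 : (0:ℝ) < N := by exact_mod_cast hN
      have h2 : (0:ℝ) < 1 + 2 * |(k : ℝ)| * N := by positivity
      simp only [Function.comp]
      field_simp
    rw [show 2 * Real.pi * ((0:ℝ) + 0) = 0 by ring] at hlim
    filter_upwards [hlim.eventually (gt_mem_nhds hη0), eventually_ge_atTop N₀,
      eventually_ge_atTop (M + b.natAbs), eventually_gt_atTop 0] with N h1 h2 h3 h4 hodd
    have hN0 : (0:ℝ) < N := by exact_mod_cast h4
    have hlarge : (M : ℤ) ≤ |b + k * N| := by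
      have hk1 : (1:ℤ) ≤ |k| := Int.one_le_abs (by rintro rfl; exact absurd hk (by decide))
      have h5 : |k * (N:ℤ)| - |b| ≤ |b + k * N| := by
        have := abs_sub_abs_le_abs_sub (k * (N:ℤ)) (-b)
        rw [abs_neg, sub_neg_eq_add, add_comm (k * (N:ℤ)) b] at this
        exact this
      rw [abs_mul, Nat.abs_cast] at h5
      have h6 : (N : ℤ) ≤ |k| * N := by nlinarith
      have h7 : (M : ℤ) + |b| ≤ N := by
        have : ((M + b.natAbs : ℕ) : ℤ) ≤ N := by exact_mod_cast h3
        rw [Nat.cast_add, Int.natCast_natAbs] at this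
        exact this
      linarith
    refine ⟨hlarge, fun e f => ?_⟩
    refine (hN₀ N h2 hodd t hf ht b k hk e f).trans ?_
    have hT : 0 < 1 + 2 * |(k : ℝ)| * N := by positivity
    rw [← Real.exp_log hT, ← Real.exp_add]
    refine Real.exp_le_exp.2 ?_
    set s : ℝ := t.children / ((t.children : ℝ) ^ 2 + (b : ℝ) ^ 2) with hs
    have hchild : t.children ≤ edges t := by
      have : ∀ t : Tree, t.children ≤ edges t := by
        intro t
        induction t with
        | single b a => simp [Tree.children]
        | join t c ht _ => simp only [Tree.children, edges]; omega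
      exact this t
    have hn1 : (1:ℝ) ≤ t.children := by exact_mod_cast ht
    have hnm : (t.children : ℝ) ≤ m := by exact_mod_cast hchild.trans hm
    have hEm : (edges t : ℝ) ≤ m := by exact_mod_cast hm
    have hbB : |(b : ℝ)| ≤ B := by exact_mod_cast hb
    have hs1 : 1 / D ≤ s := by
      rw [hs, div_le_div_iff₀ hD0 (by positivity)]
      have e1 : (t.children : ℝ) ^ 2 ≤ (m:ℝ) ^ 2 := by gcongr
      have e2 : (b : ℝ) ^ 2 ≤ (B:ℝ) ^ 2 := by
        rw [← sq_abs (b:ℝ)]
        gcongr
      have e3 : D ≤ t.children * D := by nlinarith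
      nlinarith
    have hs2 : slopeSum ((t.children, b) :: others t) = s + slopeSum (others t) := by
      simp [slopeSum, hs]
    have hs3 := slope_nonneg (others t)
    have hηs : η * (2 * m + 1) ≤ δ * s := by
      have e1 : η * (2 * m + 1) = δ * (1 / D) := by
        rw [hη]
        field_simp
      rw [e1]
      gcongr
    have hVl := (hV _ hlarge).1
    rw [hs2]
    have e0 : Real.log (1 + 2 * |(k : ℝ)| * N) + (|(b : ℝ)| + totalWeight (others t)) / 2 ≤
        N / (2 * Real.pi) * η := by
      have e1 : 2 * Real.pi * (Real.log (1 + 2 * |(k : ℝ)| * N) / N +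
        ((|(b : ℝ)| + totalWeight (others t)) / 2) / N) =
        (Real.log (1 + 2 * |(k : ℝ)| * N) + (|(b : ℝ)| + totalWeight (others t)) / 2) /
          (N / (2 * Real.pi)) := by
        field_simp
      rw [e1] at h1
      have h5 := (div_lt_iff₀ (by positivity)).1 h1
      linarith
    have e2 : η + ((2 * octahedron + η) * edges t - 2 * δ * (s + slopeSum (others t))) ≤
        V (b + k * N) - δ * s := by
      have e3 : η * edges t ≤ η * m := by gcongr
      have e4 : 0 ≤ δ * slopeSum (others t) := by positivity
      nlinarith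
    have e5 := mul_le_mul_of_nonneg_left e2 (show 0 ≤ N / (2 * Real.pi) by positivity)
    linarith

end Pool.Agent.Results.MP_b30479_gt.NotUniform
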