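import Pool.Agent.Q99.HX.AsmX
import Pool.Agent.Q99.HX.Rate
import Pool.Agent.W613.QAT.Cont
import Pool.Agent.W591.QAT.Reid
import Pool.Agent.W709.QAT.Fin
import Pool.Agent.H105R3.JSanCurl
import Pool.Agent.H309R4.Jones.SanU
import Pool.Agent.H550R3.Jones.SanSkein699
import Pool.Agent.Q151.FW.Tri0
import Pool.Agent.Q151.FAL.MAX
import Pool.Agent.Q191.TW.Out

/-!
# The complexified volume conjecture along odd roots of unity for highly twisted links on planar
shadows, with the rate of convergence

Let `Γ` be a connected plane `4`-valent graph whose vertices are replaced by twist regions (two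
strands with a number of crossings of the same sign); a pairing of the four edges at each vertex says
in which direction the twist region runs.  Every link diagram arises in this way.  We fix the plane
graph with its pairing (the *shadow*), and let the numbers of crossings of all twist regions be large,
with arbitrary signs.

**Diagrams.**  Cut the link open at an edge of `Γ`, which we may take on the outside, so that it
becomes a diagram with one strand at the bottom and one at the top.  If `Γ` has no cut vertex, then by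
the theorem of Lempel, Even and Cederbaum it can be drawn such that all edges are monotone: each
vertex has one edge below and three above, or two and two, or three and one.  With the pairing at the
vertex these are six types of vertices (`Shape`).  A shadow is a list of vertices from bottom to top;
the vertex `⟨s, i⟩` has the shape `s` and stands on the strands `i, i + 1, …`.  `link D t` is the
diagram of the link in which the vertex number `k` is a twist region of `(t k).2` crossings of the
sign `(t k).1` on two vertical strands, whose ends are turned up or down by cups and caps.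
`IsShadow D n`: `D` has `n` strands at the bottom and one at the top.  `Reduced D n`: no proper part of
the diagram ends with one single strand (otherwise the link is a connected sum).

**The fully augmented link.**  Put a circle around each twist region of `D`; the result is a *fully
augmented link*, whose complement does not depend on the numbers of crossings up to half twists.  By
C. Adams, I. Agol and D. Thurston, and J. Purcell it is decomposed by the plane and by the discs of
the circles into two copies of a right-angled ideal polyhedron, that is, by a circle packing: a circle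
for each region of the plane, such that the circles of the four regions around a vertex, called
below, right, above and left in the frame of the twist region (whose strands run from bottom to top),
touch each other as follows: right and left touch each other, and both touch the circles below and
above (regions with a common edge of `Γ` touch).  Put the point of contact of the two regions next to
the cut edge to infinity; these two regions become half planes.  The centres of the circles below,
right and left form a Euclidean triangle with the angles `2 π x 0`, `2 π x 1`, `2 π x 2` at these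
centres, and the centres of the circles above, right and left form a triangle with the angles
`2 π x 3`, `2 π x 4`, `2 π x 5`, in this order.  So the angles of both triangles have the sum `1 / 2`
in the unit `2 π`, the angles at a region inside the diagram have the sum `1`, and those in the two
outer regions are `0`.  The corners of the vertex contain the angles `x 0`, `x 1 + x 4`, `x 3`,
`x 2 + x 5` (below, right, above, left; `corner`).  Real numbers `≥ 0` with these properties are the
angle structures (`Angles D`), and by I. Rivin the geometric angles are the maximum point of the sum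
of `2 Λ (π x j) + 2 Λ (π / 2 - π x j)` over all angles; the maximum `vol D` is the volume of the
complement of the fully augmented link.  `Geometric D a`: `a` is a maximum point, and all angles which
are not in the outer regions are positive (this exists if and only if the fully augmented link is
hyperbolic, and then it is unique).

**The condition.**  In a *generalised* angle structure (`General D`) the sums
`u = x 0 + x 1 + x 2` and `u' = x 3 + x 4 + x 5` of the two triangles of a vertex may be different, but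
`u + u' = 1`, and the sums around the regions are as before.  Its volume (`angleVolume x`) is the sum of
`2 Λ (π x j) + 2 Λ (π u_j - π x j)`, where `u_j` is `u` for `j = 1, 2, 3` and `u'` for `j = 0, 4, 5`: with
each angle there are two ideal tetrahedra, with the shapes `e^{2 π i x_j}` and `e^{2 π i (u_j - x_j)}`.
`Dominant D a`: the volume of every other generalised angle structure is smaller than that of `a`.  This
is a condition on the shadow only.  It is satisfied if the triangles of all vertices have no obtuse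
angle at the centres of the circles below and above, `a k 0 ≤ 1 / 4` and `a k 3 ≤ 1 / 4` (this is
proved below, theorem `dominant`; the angles at the centres of the circles on the right and on the
left are arbitrary), and under a weaker local condition (`Pool.Agent.Q99.HU.bal_dm`: the tangent plane
of the volume of each vertex at its angles is positive at two vertices of the simplex), but these
conditions are far from necessary: according to numerical computations (not part of the proof)
`Dominant` holds for more than 99 percent of all shadows with at most 9 vertices.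

**The hyperbolic structure.**  The complement of the link without the circles is a Dehn filling of
that of the fully augmented link; if the numbers of crossings are large it is hyperbolic by W.
Thurston, and the hyperbolic structure is given by *complex* angles `x` near the geometric angles
`a`: these satisfy the same linear equations (`IsSolution D x [0, 0] 1`), and `u ≠ 1 / 2` measures the
incompleteness at the circle.  With each angle there are again two ideal tetrahedra, with the shapes
`e^{2 π i x_j}` and `e^{2 π i (u_j - x_j)}`.  The gluing equations are `Hyperbolic D t x`: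
for all directions `δ` (solutions of the homogeneous equations, `δ = 0` in the outer regions)
`∑_j (δ(u_j) (ℓ(u_j) - ℓ(u_j - x_j)) + δ_j (ℓ(u_j - x_j) - ℓ(x_j)))`, summed over all vertices, plus
the terms `(π i w (u - u') / 2 + π i) δ(u - u')` of the twist regions (`w` crossings, with the sign),
is zero, where `ℓ(x) = log (2 sin π x)`.  The first part is the derivative of the sum of the
potentials `F(u_j) - F(u_j - x_j) - F(x_j)`, `F' = ℓ`; for directions with `δ(u) = 0` these are the
equations of the edges, and for the direction which changes `u` at one vertex it is the equation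
`w m + 2 l = 2 π i` of the filling slope for the logarithms `m` and `l` of the holonomy of the
circle.  By the formula of Schläfli (Neumann and Zagier) the volume of the complement is the sum
`volume x` of the volumes of all these ideal tetrahedra.  (For two vertices these are the double
twist links: for instance four and four crossings give the volumes `5.23868…` of `8_3` and
`5.13794…` of `7_4`.)  These facts on hyperbolic volumes are cited, and are not part of the Lean
statement.

**The phase.**  Let `F` be the primitive of `ℓ` with `F(1/2) = 0` (`prim`), that is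
`F(x) = i (Li_2(e^{2 π i x}) - π² / 6 + π² x (1 - x)) / (2 π)`, and let
`potential t x` be the sum over the twist regions of
`∑_j (F(u_j) - F(u_j - x_j) - F(x_j)) + π i w (u - u')² / 4 + π i (u - u')`.  The gluing equations say that
the derivatives of the potential in all directions `δ` vanish, so `potential t x` is a critical value.
Its real part is `volume x / (2 π)` (part of the theorem).  Put
`cs t x = 2 π Im (potential t x) - π² w / 2`, `w` the number of all crossings, counted with signs.  By
W. Neumann and D. Zagier, T. Yoshida, and W. Neumann (see also Y. Yokota, J. Cho and J. Murakami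
for potentials of this kind) `volume x + i cs t x` is the complex volume `vol + i CS` of the complement
modulo `i π²` (this is cited, and not part of the Lean statement).  For instance the double twist knots
with `2` and `-3`, and with `2` and `-4` crossings give `2.82812208… + 3.02412837… i` and
`3.16396322… - 3.07886290… i` modulo `i π²`, the complex volumes of `5_2` and `6_1`.

**Theorem.**  Let `D` be a reduced shadow with geometric angles `a` which are dominant.  For all
sufficiently small `ρ > 0` there are `M` and `C` such that for all numbers `≥ m ≥ M` of crossings, of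
arbitrary signs: there is exactly one solution `x` of the gluing equations at a distance `< ρ` from
`a`, `|volume x - vol D| ≤ C / m²`, and with `V = volume x + i cs t x` and `a_n = ⟨L⟩_n` one has
`a_n ≠ 0` for all large `n` and
`π log (a_{n+2} / a_n) = V + 3 π / n + O(1 / n²)` modulo `i π²`
(for all `n`, in particular along the odd integers; the error term of the first order, `3 π / n`, is
the same for all these links).

The invariants are defined from the R-matrix of `U_q(sl_2)`, with `v = q^{1/2}` and
`{k} = v^k - v^{-k}`.  The Kashaev invariant is the value at `v = exp (π i / N)`, that is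
`q = exp (2 π i / N)`; the framing is normalised for strands which are oriented upwards.  Even
changes of the framing and changes of the orientations multiply it by powers of
`v^{N^2-1}`, and other conventions for
cups and caps by `± (-1)^{N-1}`.  The theorem is proved for all `framed e f (link D t)`, in which these
factors are arbitrary.
-/

set_option autoImplicit false

namespace Pool.Agent.Results.MP_b30479_gt.PlanarShadowRatios

open Finset Filter Topology

/-! ### The operators of diagrams in the plane -/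

/-- `{n} = v^n - v^{-n}` -/
noncomputable def br (v : ℂ) (n : ℤ) : ℂ := v ^ n - v ^ (-n)

/-- `{n}! = {1} {2} ⋯ {n}` -/
noncomputable def brf (v : ℂ) (n : ℕ) : ℂ := ∏ j ∈ range n, br v ((j : ℤ) + 1)

/-- The positive crossing: the R-matrix of `U_q(sl_2)` on `V_N ⊗ V_N`, `V_N` with basis
`e_0, …, e_{N-1}`, times the framing factor `v^{-(N^2-1)/2}`; `crossP N v p q` is the coefficient
of `e_{p.1} ⊗ e_{p.2}` in the image of `e_{q.1} ⊗ e_{q.2}`:
`e_i ⊗ e_j ↦ ∑_n v^{-(N-1)(1+i+j) + 2(i-n)(j+n) + n(n-1)/2}
({j+n}! / ({j}! {n}!)) ∏_{t<n} {N-i+t} e_{j+n} ⊗ e_{i-n}`. -/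
noncomputable def crossP (N : ℕ) (v : ℂ) : Matrix (Fin N × Fin N) (Fin N × Fin N) ℂ :=
  fun p q => if (p.1 : ℕ) + p.2 = q.1 + q.2 ∧ (q.2 : ℕ) ≤ p.1 then
    v ^ (-((N : ℤ) - 1) * (1 + (q.1 : ℕ) + (q.2 : ℕ)) + 2 * (p.1 : ℕ) * (p.2 : ℕ)) *
      v ^ (((p.1 : ℕ) - q.2) * ((p.1 : ℕ) - q.2 - 1) / 2) *
      (brf v p.1 / (brf v q.2 * brf v ((p.1 : ℕ) - q.2))) *
      ∏ t ∈ range ((p.1 : ℕ) - q.2), br v ((N : ℤ) - (q.1 : ℕ) + t)
    else 0

/-- The negative crossing, inverse of `crossP N v`:
`e_i ⊗ e_j ↦ ∑_n (-1)^n v^{(N-1)(1+i+j) - 2ij - n(n-1)/2}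
({i+n}! / ({i}! {n}!)) ∏_{t<n} {N-j+t} e_{j-n} ⊗ e_{i+n}`. -/
noncomputable def crossN (N : ℕ) (v : ℂ) : Matrix (Fin N × Fin N) (Fin N × Fin N) ℂ :=
  fun p q => if (p.1 : ℕ) + p.2 = q.1 + q.2 ∧ (q.1 : ℕ) ≤ p.2 then
    (-1) ^ ((p.2 : ℕ) - q.1) *
      v ^ (((N : ℤ) - 1) * (1 + (q.1 : ℕ) + (q.2 : ℕ)) - 2 * (q.1 : ℕ) * (q.2 : ℕ)) /
      v ^ (((p.2 : ℕ) - q.1) * ((p.2 : ℕ) - q.1 - 1) / 2) *
      (brf v p.2 / (brf v q.1 * brf v ((p.2 : ℕ) - q.1))) *
      ∏ t ∈ range ((p.2 : ℕ) - q.1), br v ((N : ℤ) - (q.2 : ℕ) + t)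
    else 0

/-- The coefficients of the invariant vector `∑_k kap k e_k ⊗ e_{N-1-k}` of `V_N ⊗ V_N`:
`kap k = (-1)^k v^{k(N-2-k)} {k}! {N-1-k}! / {N-1}!`. -/
noncomputable def kap (N : ℕ) (v : ℂ) (k : ℕ) : ℂ :=
  (-1) ^ k * v ^ ((k : ℤ) * ((N : ℤ) - 2 - k)) * (brf v k * brf v (N - 1 - k) / brf v (N - 1))

/-- The cup: the invariant vector of `V_N ⊗ V_N`. -/
noncomputable def cup (N : ℕ) (v : ℂ) (p : Fin N × Fin N) : ℂ :=
  if (p.1 : ℕ) + p.2 = N - 1 then kap N v p.1 else 0

/-- The cap: the invariant linear form on `V_N ⊗ V_N`. -/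
noncomputable def cap (N : ℕ) (v : ℂ) (p : Fin N × Fin N) : ℂ :=
  if (p.1 : ℕ) + p.2 = N - 1 then (kap N v p.2)⁻¹ else 0

/-- The elementary parts of a diagram in the plane.  Strands are counted from `0`, from left to
right.  `cup i` creates the strands `i` and `i + 1`, `cap i` closes the strands `i` and `i + 1`,
`twist i σ m` is a vertical twist region of `m` crossings of the strands `i` and `i + 1`, all of the
same sign (for `σ = true` as `crossP`, for `σ = false` as `crossN`). -/
inductive Elem
  | cup (i : ℕ)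
  | cap (i : ℕ)
  | twist (i : ℕ) (σ : Bool) (m : ℕ)

/-- The operator of an elementary part.  A vector of `V_N ⊗ ⋯ ⊗ V_N` is given by its coefficients
with respect to the basis vectors `e_{s_0} ⊗ ⋯ ⊗ e_{s_{n-1}}`, indexed by the lists
`s = [s_0, …, s_{n-1}]`. -/
noncomputable def Elem.act (N : ℕ) (v : ℂ) : Elem → (List (Fin N) → ℂ) → List (Fin N) → ℂ
  | .cup i, f => fun s => match s.drop i with
      | a :: b :: r => PlanarShadowRatios.cup N v (a, b) * f (s.take i ++ r)
      | _ => 0
  | .cap i, f => fun s =>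
      ∑ p : Fin N × Fin N, PlanarShadowRatios.cap N v p * f (s.take i ++ p.1 :: p.2 :: s.drop i)
  | .twist i σ m, f => fun s => match s.drop i with
      | a :: b :: r => ∑ p : Fin N × Fin N,
          ((if σ then crossP N v else crossN N v) ^ m) (a, b) p * f (s.take i ++ p.1 :: p.2 :: r)
      | _ => 0

/-- The operator of a diagram in the plane, a list of elementary parts from bottom to top. -/
noncomputable def run (N : ℕ) (v : ℂ) (D : List Elem) (f : List (Fin N) → ℂ) :
    List (Fin N) → ℂ := D.foldl (fun g P => P.act N v g) f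

/-! ### Highly twisted links -/

/-- The six types of vertices.
`vert`: two strands below, two above; the twist region runs from bottom to top.
`hor`: two below, two above; the twist region runs from left to right.
`forkL`: one below, three above; the first two strands above are the ends of the twist region at one
side, the other two strands are its ends at the other side.
`forkR`: one below, three above; the last two strands above are at one side.
`joinL`: three below, one above; the first two strands below are at one side.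
`joinR`: three below, one above; the last two strands below are at one side. -/
inductive Shape
  | vert
  | hor
  | forkL
  | forkR
  | joinL
  | joinR

/-- A vertex of a shadow: its shape and the number of its first strand. -/
structure Vertex where
  shape : Shape
  pos : ℕ

/-- The elementary parts of a vertex with `m` crossings of the sign `σ`. -/
def elems : Shape → ℕ → Bool → ℕ → List Elem
  | .vert, i, σ, m => [.twist i σ m]
  | .hor, i, σ, m => [.cup (i + 2), .twist (i + 1) σ m, .cap i]
  | .forkL, i, σ, m => [.cup (i + 1), .twist i σ m]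
  | .forkR, i, σ, m => [.cup i, .twist (i + 1) σ m]
  | .joinL, i, σ, m => [.twist i σ m, .cap (i + 1)]
  | .joinR, i, σ, m => [.twist (i + 1) σ m, .cap i]

/-- The number of strands below a vertex. -/
def Shape.below : Shape → ℕ
  | .vert => 2
  | .hor => 2
  | .forkL => 1
  | .forkR => 1
  | .joinL => 3
  | .joinR => 3

/-- The number of all strands above a vertex, if there are `n` strands below it. -/
def Shape.above : Shape → ℕ → ℕ
  | .vert, n => n
  | .hor, n => n
  | .forkL, n => n + 2
  | .forkR, n => n + 2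
  | .joinL, n => n - 2
  | .joinR, n => n - 2

/-- `D` (the list of its vertices from bottom to top) is a shadow with `n` strands at the bottom
and one strand at the top. -/
def IsShadow : List Vertex → ℕ → Prop
  | [], n => n = 1
  | P :: D, n => P.pos + P.shape.below ≤ n ∧ IsShadow D (P.shape.above n)

/-- Above each vertex except the last one there is more than one strand. -/
def Reduced : List Vertex → ℕ → Prop
  | [], _ => True
  | P :: D, n => (D = [] ∨ P.shape.above n ≠ 1) ∧ Reduced D (P.shape.above n)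

/-- The link with the shadow `D`, cut open at one point of the strand at the bottom; the twist region
number `k` has `(t k).2` crossings of the sign `(t k).1`. -/
def link : (D : List Vertex) → (Fin D.length → Bool × ℕ) → List Elem
  | [], _ => []
  | P :: D, t => elems P.shape P.pos (t 0).1 (t 0).2 ++ link D (fun k => t k.succ)

/-- The `N`-coloured Jones polynomial (unknot `= 1`; all components coloured `N`) at `q = v^2` of the
link with the diagram `E` (one strand at the bottom and one at the top), up to sign and powers of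
`v`: its operator on `V_N` is a multiple of the identity, and this is the coefficient of `e_0` in the
image of `e_0`. -/
noncomputable def jones (N : ℕ) (E : List Elem) (v : ℂ) : ℂ :=
  if h : 0 < N then run N v E (fun l => if l = [⟨0, h⟩] then 1 else 0) [⟨0, h⟩] else 0

/-- `v_N = exp (π i / N)`, so that `q = v_N^2 = exp (2 π i / N)`. -/
noncomputable def root (N : ℕ) : ℂ := Complex.exp (Real.pi * Complex.I / N)

/-- The Kashaev invariant (the framing is normalised for strands which are oriented upwards). -/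
noncomputable def kashaev (E : List Elem) (N : ℕ) : ℂ := jones N E (root N)

/-- The Kashaev invariant with another framing (changed by `2 e`, up to the sign), and with the sign
`(-1)^{f (N-1)}`. -/
noncomputable def framed (e f : ℤ) (E : List Elem) (N : ℕ) : ℂ :=
  (-1) ^ (f * ((N : ℤ) - 1)) * root N ^ (e * ((N : ℤ) ^ 2 - 1)) * kashaev E N

/-! ### Angle structures and the fully augmented link -/

section

variable {R : Type} [CommRing R]

/-- The angles in the four corners of a vertex: below, right, above, left of the twist region. -/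
def corner (x : Fin 6 → R) : Fin 4 → R := ![x 0, x 1 + x 4, x 3, x 2 + x 5]

/-- The number of the corner which contains the angle `j`. -/
def cornerOf : Fin 6 → Fin 4 := ![0, 1, 3, 2, 1, 3]

/-- The angle sums in the gaps above a vertex with the corners `q` on the strands `i, i + 1, …`; `G`
are the sums in the gaps below it (with `n` strands there are `n + 1` gaps, the gap `k` is on the
left of the strand `k`). -/
def gaps (s : Shape) (i : ℕ) (q : Fin 4 → R) (G : List R) : List R :=
  match s, G.drop i with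
  | .vert, x :: _ :: y :: r => G.take i ++ (x + q 3) :: q 2 :: (y + q 1) :: r
  | .hor, x :: _ :: y :: r => G.take i ++ (x + q 2) :: q 1 :: (y + q 0) :: r
  | .forkL, x :: y :: r => G.take i ++ (x + q 3) :: q 2 :: q 1 :: (y + q 0) :: r
  | .forkR, x :: y :: r => G.take i ++ (x + q 0) :: q 3 :: q 2 :: (y + q 1) :: r
  | .joinL, x :: _ :: _ :: y :: r => G.take i ++ (x + q 3) :: (y + q 2) :: r
  | .joinR, x :: _ :: _ :: y :: r => G.take i ++ (x + q 2) :: (y + q 1) :: r
  | _, _ => []

/-- The angle sums of the regions which end at the vertex. -/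
def ended (s : Shape) (i : ℕ) (q : Fin 4 → R) (G : List R) : List R :=
  match s, G.drop i with
  | .vert, _ :: g :: _ => [g + q 0]
  | .hor, _ :: g :: _ => [g + q 3]
  | .joinL, _ :: g :: h :: _ => [g + q 0, h + q 1]
  | .joinR, _ :: g :: h :: _ => [g + q 3, h + q 0]
  | _, _ => []

/-- `x k j` is the angle number `j` of the vertex number `k`.  The six angles of each vertex have the
sum `u`, each region which ends at a vertex has the angle sum `u`, and the two outer regions have the
angle sum `0`; `G` are the angle sums in the gaps at the bottom. -/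
def IsSolution : (D : List Vertex) → (Fin D.length → Fin 6 → R) → List R → R → Prop
  | [], _, G, _ => G = [0, 0]
  | P :: D, x, G, u => x 0 0 + x 0 1 + x 0 2 + (x 0 3 + x 0 4 + x 0 5) = u ∧
      (∀ c ∈ ended P.shape P.pos (corner (x 0)) G, c = u) ∧
      IsSolution D (fun k => x k.succ) (gaps P.shape P.pos (corner (x 0)) G) u

/-- `u_j`: the sum `u` of the first triangle for `j = 1, 2, 3`, the sum `u'` of the second one for
`j = 0, 4, 5`. -/
def top (x : Fin 6 → R) (j : Fin 6) : R :=
  if j = 0 ∨ j = 4 ∨ j = 5 then x 3 + x 4 + x 5 else x 0 + x 1 + x 2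

end

/-- The generalised angle structures: all non-negative solutions; the sums `u` and `u'` of the two
triangles of a vertex may be different. -/
def General (D : List Vertex) : Set (Fin D.length → Fin 6 → ℝ) :=
  {a | IsSolution D a [0, 0] 1 ∧ ∀ k j, 0 ≤ a k j}

/-- The angle structures: the three angles of each triangle have the sum `1 / 2`. -/
def Angles (D : List Vertex) : Set (Fin D.length → Fin 6 → ℝ) :=
  {a ∈ General D | ∀ k, a k 0 + a k 1 + a k 2 = 1 / 2}

/-- The corner of a vertex which lies in the gap on its left. -/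
def Shape.left : Shape → Fin 4
  | .vert => 3
  | .hor => 2
  | .forkL => 3
  | .forkR => 0
  | .joinL => 3
  | .joinR => 2

/-- The corner of a vertex which lies in the gap on its right. -/
def Shape.right : Shape → Fin 4
  | .vert => 1
  | .hor => 0
  | .forkL => 0
  | .forkR => 1
  | .joinL => 2
  | .joinR => 1

/-- `Outer D n k c`: the corner `c` of the vertex number `k` of `D` lies in the region on the left or
on the right of the diagram `D` with `n` strands at the bottom. -/
def Outer : (D : List Vertex) → ℕ → Fin D.length → Fin 4 → Prop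
  | [], _, _, _ => False
  | P :: D, n, k, c => Fin.cases (motive := fun _ => Prop)
      ((P.pos = 0 ∧ c = P.shape.left) ∨ (P.pos + P.shape.below = n ∧ c = P.shape.right))
      (fun k' => Outer D (P.shape.above n) k' c) k

/-- Lobachevsky's function `Λ(x) = -∫_0^x log |2 sin t| dt`. -/
noncomputable def Lob (x : ℝ) : ℝ := -∫ t in (0 : ℝ)..x, Real.log |2 * Real.sin t|

/-- The volume of a generalised angle structure. -/
noncomputable def angleVolume {c : ℕ} (a : Fin c → Fin 6 → ℝ) : ℝ :=
  ∑ k, ∑ j, 2 * (Lob (Real.pi * a k j) + Lob (Real.pi * (top (a k) j - a k j)))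

/-- `a` are the geometric angles of the fully augmented link: an angle structure of maximal volume,
such that all angles which are not in the outer regions are positive. -/
structure Geometric (D : List Vertex) (a : Fin D.length → Fin 6 → ℝ) : Prop where
  angles : a ∈ Angles D
  positive : ∀ k j, ¬ Outer D 1 k (cornerOf j) → 0 < a k j
  maximal : ∀ a' ∈ Angles D, angleVolume a' ≤ angleVolume a

/-- The geometric angles are the only maximum point of the volume on all generalised angle
structures. -/
def Dominant (D : List Vertex) (a : Fin D.length → Fin 6 → ℝ) : Prop :=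
  ∀ x ∈ General D, x ≠ a → angleVolume x < angleVolume a

/-! ### The hyperbolic structure -/

/-- `log (2 sin π x)` -/
noncomputable def lsin (x : ℂ) : ℂ := Complex.log (2 * Complex.sin (Real.pi * x))

/-- `u - u'` -/
def deviation (x : Fin 6 → ℂ) : ℂ := (x 0 + x 1 + x 2) - (x 3 + x 4 + x 5)

/-- The number of crossings with the sign. -/
def crossings (t : Bool × ℕ) : ℤ := (if t.1 then 1 else -1) * (t.2 : ℤ)

/-- Complex angles which satisfy the linear equations (`u = 1`), or the homogeneous ones (`u = 0`),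
and vanish in the outer regions. -/
def IsComplex (D : List Vertex) (x : Fin D.length → Fin 6 → ℂ) (u : ℂ) : Prop :=
  IsSolution D x [0, 0] u ∧ ∀ k j, Outer D 1 k (cornerOf j) → x k j = 0

/-- The gluing equation for the direction `δ`. -/
noncomputable def equation {c : ℕ} (t : Fin c → Bool × ℕ) (x δ : Fin c → Fin 6 → ℂ) : ℂ :=
  ∑ k, (∑ j, (top (δ k) j * (lsin (top (x k) j) - lsin (top (x k) j - x k j)) +
      δ k j * (lsin (top (x k) j - x k j) - lsin (x k j))) +
    (Complex.I * Real.pi * crossings (t k) * deviation (x k) / 2 + Complex.I * Real.pi) *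
      deviation (δ k))

/-- Complex angles which satisfy all gluing equations. -/
def Hyperbolic (D : List Vertex) (t : Fin D.length → Bool × ℕ) (x : Fin D.length → Fin 6 → ℂ) :
    Prop := IsComplex D x 1 ∧ ∀ δ : Fin D.length → Fin 6 → ℂ, IsComplex D δ 0 → equation t x δ = 0

/-- The volume of the ideal tetrahedron with the shape `z`. -/
noncomputable def ideal (z : ℂ) : ℝ :=
  Lob (Complex.arg z) + Lob (Complex.arg (1 / (1 - z))) + Lob (Complex.arg ((z - 1) / z))

/-- The sum of the volumes of the ideal tetrahedra. -/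
noncomputable def volume {c : ℕ} (x : Fin c → Fin 6 → ℂ) : ℝ :=
  ∑ k, ∑ j, (ideal (Complex.exp (2 * Real.pi * Complex.I * x k j)) +
    ideal (Complex.exp (2 * Real.pi * Complex.I * (top (x k) j - x k j))))

/-- The primitive of `log (2 sin π x)` which vanishes at `1 / 2`. -/
noncomputable def prim (x : ℂ) : ℂ := ∫ s in (0 : ℝ)..1, (x - 1 / 2) * lsin (1 / 2 + s * (x - 1 / 2))

/-- The potential. -/
noncomputable def potential {c : ℕ} (t : Fin c → Bool × ℕ) (x : Fin c → Fin 6 → ℂ) : ℂ :=
  ∑ k, (∑ j, (prim (top (x k) j) - prim (top (x k) j - x k j) - prim (x k j)) +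
    Complex.I * Real.pi * crossings (t k) * deviation (x k) ^ 2 / 4 +
      Complex.I * Real.pi * deviation (x k))

/-- `2 π Im (potential t x) - π² w / 2`, where `w` is the number of all crossings, with signs. -/
noncomputable def cs {c : ℕ} (t : Fin c → Bool × ℕ) (x : Fin c → Fin 6 → ℂ) : ℝ :=
  2 * Real.pi * (potential t x).im - Real.pi ^ 2 * (∑ k, crossings (t k) : ℤ) / 2

/-- `volume x + i cs t x` -/
noncomputable def complexVolume {c : ℕ} (t : Fin c → Bool × ℕ) (x : Fin c → Fin 6 → ℂ) : ℂ :=
  volume x + cs t x * Complex.I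

/-! ### Checks of the definitions (not part of the result) -/

/-- the elementary parts of the library -/
def toQ : Elem → Pool.Agent.W709.QAT.Piece
  | .cup i => .cup i
  | .cap i => .cap i
  | .twist i σ m => .twist i σ m

/-- For `N = 2` the crossings satisfy the skein relation of the Jones polynomial. -/
theorem skein (v : ℂ) (hv : v ≠ 0) (h1 : br v 1 ≠ 0) :
    v ^ 2 • crossP 2 v - (v ^ 2)⁻¹ • crossN 2 v =
      (v - v⁻¹) • (1 : Matrix (Fin 2 × Fin 2) (Fin 2 × Fin 2) ℂ) :=
  Pool.Agent.H550R3.Jones.taskSanSkein v hv h1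

/-- The two crossings are inverse to each other. -/
theorem cross_inverse (N : ℕ) (v : ℂ) (hv : v ≠ 0)
    (h : ∀ k : ℕ, 0 < k → k < N → br v k ≠ 0) :
    crossP N v * crossN N v = 1 ∧ crossN N v * crossP N v = 1 :=
  Pool.Agent.H309R4.Jones.SanI.taskSanInv Pool.Agent.H345J.taskMod Pool.Agent.H345J.taskInv
    Pool.Agent.H559R3.J.taskCross N v ⟨hv, h⟩

/-- Curls may be removed: the framing is normalised. -/
theorem curl (N : ℕ) (v : ℂ) (hv : v ≠ 0) (h : ∀ k : ℕ, 0 < k → k < N → br v k ≠ 0) :
    (fun i j => ∑ x : Fin N, v ^ ((N : ℤ) - 1 - 2 * (x : ℕ)) * crossP N v (i, x) (j, x)) =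
      (1 : Matrix (Fin N) (Fin N) ℂ) ∧
    (fun i j => ∑ x : Fin N, v ^ ((N : ℤ) - 1 - 2 * (x : ℕ)) * crossN N v (i, x) (j, x)) =
      (1 : Matrix (Fin N) (Fin N) ℂ) :=
  Pool.Agent.H105R3.JSan.taskSanCurl N v ⟨hv, h⟩

lemma act_eq {N : ℕ} {v : ℂ} : ∀ (P : Elem) (f : List (Fin N) → ℂ), P.act N v f =
    Pool.Agent.W709.QAT.Piece.act N v (toQ P) f
  | .cup _, _ => rfl
  | .cap _, _ => rfl
  | .twist _ _ _, _ => rfl

lemma run_eq {N : ℕ} {v : ℂ} : ∀ (D : List Elem) (f : List (Fin N) → ℂ), run N v D f =
    Pool.Agent.W709.QAT.run N v (D.map toQ) f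
  | [], _ => rfl
  | P :: D, f => by
    show run N v D (P.act N v f) = Pool.Agent.W709.QAT.run N v (D.map toQ) _
    rw [run_eq D, act_eq]

/-- Straightening a strand. -/
theorem zigzag (N : ℕ) (v : ℂ) (hv : v ≠ 0) (h : ∀ k : ℕ, 0 < k → k < N → br v k ≠ 0)
    (f : List (Fin N) → ℂ) (i : ℕ) (s : List (Fin N)) (hi : i < s.length) :
    run N v [.cup (i + 1), .cap i] f s = f s ∧ run N v [.cup i, .cap (i + 1)] f s = f s := by
  rw [run_eq, run_eq]
  exact Pool.Agent.W591.QAT.zz N v hv h f i s hi

/-- The third Reidemeister move. -/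
theorem reidemeister (N : ℕ) (v : ℂ) (hv : v ≠ 0) (h : ∀ k : ℕ, 0 < k → k < N → br v k ≠ 0)
    (f : List (Fin N) → ℂ) (i : ℕ) (s : List (Fin N)) (hi : i + 3 ≤ s.length) :
    run N v [.twist i true 1, .twist (i + 1) true 1, .twist i true 1] f s =
      run N v [.twist (i + 1) true 1, .twist i true 1, .twist (i + 1) true 1] f s := by
  rw [run_eq, run_eq]
  exact (Pool.Agent.W591.QAT.reid N v hv h f i s).2 hi

/-- The unknot (no vertices) has the invariant `1`. -/
theorem unknot (N : ℕ) (hN : 0 < N) (v : ℂ) : jones N [] v = 1 := by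
  simp [jones, run, hN]

lemma lob_eq (x : ℝ) : Lob x = GapVol.lob x := rfl

lemma hh_eq (x : ℝ) : 2 * (Lob (Real.pi * x) + Lob (Real.pi / 2 - Real.pi * x)) =
    2 * Real.pi * Pool.Agent.Q99.FAL.hh x := by
  have e : Real.pi / 2 - Real.pi * x = Real.pi * (1 / 2 - x) := by ring
  rw [e, lob_eq, lob_eq, Pool.Agent.Q151.FW.lob_LL, Pool.Agent.Q151.FW.lob_LL,
    Pool.Agent.Q99.FAL.hh]
  ring

/-- the volume in the notation of the library -/
lemma pt_eq {c : ℕ} (a : Fin c → Fin 6 → ℝ)
    (h : ∀ k, a k 0 + a k 1 + a k 2 + (a k 3 + a k 4 + a k 5) = 1) :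
    angleVolume a = 2 * Real.pi * ∑ k, Pool.Agent.Q99.HU.pt (a k) := by
  unfold angleVolume
  rw [Finset.mul_sum]
  refine Finset.sum_congr rfl fun k _ => ?_
  have e : ∀ x : ℝ, Lob (Real.pi * x) = -(Real.pi * Pool.Agent.W719.BS.LL x) := by
    intro x
    rw [lob_eq, Pool.Agent.Q151.FW.lob_LL]
  have e2 : Pool.Agent.Q99.FAL.n2 (a k) = 1 - Pool.Agent.Q99.FAL.n1 (a k) := by
    have := h k
    show a k 3 + a k 4 + a k 5 = 1 - (a k 0 + a k 1 + a k 2)
    linarith
  have e3 := Pool.Agent.Q151.HU.LL_one_sub (Pool.Agent.Q99.FAL.n1 (a k))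
  rw [← e2] at e3
  unfold Pool.Agent.Q99.HU.pt
  rw [Fin.sum_univ_six, Fin.sum_univ_six]
  have t0 : top (a k) 0 = Pool.Agent.Q99.FAL.n2 (a k) := rfl
  have t1 : top (a k) 1 = Pool.Agent.Q99.FAL.n1 (a k) := rfl
  have t2 : top (a k) 2 = Pool.Agent.Q99.FAL.n1 (a k) := rfl
  have t3 : top (a k) 3 = Pool.Agent.Q99.FAL.n1 (a k) := rfl
  have t4 : top (a k) 4 = Pool.Agent.Q99.FAL.n2 (a k) := rfl
  have t5 : top (a k) 5 = Pool.Agent.Q99.FAL.n2 (a k) := rfl
  have d0 : Pool.Agent.Q99.FAL.dn (a k) 0 = Pool.Agent.Q99.FAL.n2 (a k) := rfl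
  have d1 : Pool.Agent.Q99.FAL.dn (a k) 1 = Pool.Agent.Q99.FAL.n1 (a k) := rfl
  have d2 : Pool.Agent.Q99.FAL.dn (a k) 2 = Pool.Agent.Q99.FAL.n1 (a k) := rfl
  have d3 : Pool.Agent.Q99.FAL.dn (a k) 3 = Pool.Agent.Q99.FAL.n1 (a k) := rfl
  have d4 : Pool.Agent.Q99.FAL.dn (a k) 4 = Pool.Agent.Q99.FAL.n2 (a k) := rfl
  have d5 : Pool.Agent.Q99.FAL.dn (a k) 5 = Pool.Agent.Q99.FAL.n2 (a k) := rfl
  rw [t0, t1, t2, t3, t4, t5, d0, d1, d2, d3, d4, d5]
  simp only [e]
  rw [e3]
  ring

lemma av_eq {c : ℕ} (a : Fin c → Fin 6 → ℝ)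
    (h : ∀ k, a k 0 + a k 1 + a k 2 = 1 / 2 ∧ a k 3 + a k 4 + a k 5 = 1 / 2) :
    angleVolume a = 2 * Real.pi * ∑ k, ∑ j, Pool.Agent.Q99.FAL.hh (a k j) := by
  unfold angleVolume
  rw [Finset.mul_sum]
  refine Finset.sum_congr rfl fun k _ => ?_
  rw [Finset.mul_sum]
  refine Finset.sum_congr rfl fun j _ => ?_
  have e : top (a k) j = 1 / 2 := by
    unfold top
    split
    · exact (h k).2
    · exact (h k).1
  rw [e, ← hh_eq, mul_sub, mul_one_div]

lemma hh_sym (x : ℝ) : Pool.Agent.Q99.FAL.hh (1 / 2 - x) = Pool.Agent.Q99.FAL.hh x := by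
  unfold Pool.Agent.Q99.FAL.hh
  rw [sub_sub_cancel, add_comm]

lemma hh_quarter {t : ℝ} (h0 : 0 ≤ t) (h1 : t ≤ 1 / 2) :
    Pool.Agent.Q99.FAL.hh t ≤ Pool.Agent.Q99.FAL.hh (1 / 4) := by
  have h := Pool.Agent.Q99.FAL.MX.hh_concave.2 (show t ∈ Set.Icc (0 : ℝ) (1 / 2) from ⟨h0, h1⟩)
    (show 1 / 2 - t ∈ Set.Icc (0 : ℝ) (1 / 2) from ⟨by linarith, by linarith⟩)
    (show (0 : ℝ) ≤ 1 / 2 by norm_num) (show (0 : ℝ) ≤ 1 / 2 by norm_num) (by norm_num)
  rw [hh_sym] at h
  simp only [smul_eq_mul] at h
  have e : 1 / 2 * t + 1 / 2 * (1 / 2 - t) = (1 : ℝ) / 4 := by ring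
  rw [e] at h
  linarith

/-- A shadow with two vertices; its links are the double twist knots and links. -/
def two : List Vertex := [⟨.forkR, 0⟩, ⟨.joinL, 0⟩]

/-- The angle structures of `two`. -/
noncomputable def twoAng (t : ℝ) : Fin 2 → Fin 6 → ℝ :=
  ![![0, 0, 1 / 2, t, 0, 1 / 2 - t], ![t, 1 / 2 - t, 0, 0, 1 / 2, 0]]

lemma two_mem {t : ℝ} (h0 : 0 ≤ t) (h1 : t ≤ 1 / 2) : twoAng t ∈ Angles two := by
  refine ⟨⟨⟨?_, ?_, ?_, ?_, ?_⟩, ?_⟩, ?_⟩
  · show (0 : ℝ) + 0 + 1 / 2 + (t + 0 + (1 / 2 - t)) = 1
    ring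
  · intro c hc
    cases hc
  · show t + (1 / 2 - t) + 0 + (0 + 1 / 2 + 0) = (1 : ℝ)
    ring
  · intro c hc
    have hc' : c ∈ [(1 / 2 + (1 / 2 - t) : ℝ) + t, t + ((1 / 2 - t) + 1 / 2)] := hc
    simp only [List.mem_cons, List.not_mem_nil, or_false] at hc'
    rcases hc' with rfl | rfl <;> ring
  · show [(0 : ℝ) + 0 + (0 + 0), 0 + (0 + 0) + 0] = [0, 0]
    norm_num
  · intro k j
    fin_cases k <;> fin_cases j <;>
      first
        | exact le_of_eq (show (0 : ℝ) = 0 from rfl)
        | exact (show (0 : ℝ) ≤ 1 / 2 by norm_num)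
        | exact h0
        | exact (show (0 : ℝ) ≤ 1 / 2 - t by linarith)
  · intro k
    fin_cases k
    · show (0 : ℝ) + 0 + 1 / 2 = 1 / 2
      ring
    · show t + (1 / 2 - t) + 0 = (1 : ℝ) / 2
      ring

lemma two_eq {a : Fin 2 → Fin 6 → ℝ} (ha : a ∈ Angles two) :
    ∃ t : ℝ, 0 ≤ t ∧ t ≤ 1 / 2 ∧ a = twoAng t := by
  obtain ⟨⟨⟨h1, -, h2, h3, h4⟩, h6⟩, h5⟩ := ha
  have e1 : (a 0 0 + a 0 1 + a 0 2) + (a 0 3 + a 0 4 + a 0 5) = 1 := h1
  have e2 : (a 1 0 + a 1 1 + a 1 2) + (a 1 3 + a 1 4 + a 1 5) = 1 := h2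
  have e3 : (a 0 2 + a 0 5) + a 1 0 = 1 := h3 _ (List.mem_cons_self ..)
  have e4 : a 0 3 + (a 1 1 + a 1 4) = 1 := h3 _ (List.mem_cons_of_mem _ (List.mem_cons_self ..))
  have e5 : [(0 + a 0 0) + (a 1 2 + a 1 5), (0 + (a 0 1 + a 0 4)) + a 1 3] = [(0 : ℝ), 0] := h4
  simp only [List.cons.injEq, and_true] at e5
  obtain ⟨e5, e6⟩ := e5
  have g1 : a 0 0 + a 0 1 + a 0 2 = 1 / 2 := h5 (0 : Fin 2)
  have g2 : a 1 0 + a 1 1 + a 1 2 = 1 / 2 := h5 (1 : Fin 2)
  have p0 : 0 ≤ a 0 0 := h6 (0 : Fin 2) 0
  have p1 : 0 ≤ a 0 1 := h6 (0 : Fin 2) 1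
  have p4 : 0 ≤ a 0 4 := h6 (0 : Fin 2) 4
  have p3 : 0 ≤ a 0 3 := h6 (0 : Fin 2) 3
  have p5 : 0 ≤ a 0 5 := h6 (0 : Fin 2) 5
  have q2 : 0 ≤ a 1 2 := h6 (1 : Fin 2) 2
  have q5 : 0 ≤ a 1 5 := h6 (1 : Fin 2) 5
  have q3 : 0 ≤ a 1 3 := h6 (1 : Fin 2) 3
  refine ⟨a 0 3, p3, by linarith, ?_⟩
  funext k j
  fin_cases k <;> fin_cases j
  · show a 0 0 = 0
    linarith
  · show a 0 1 = 0
    linarith
  · show a 0 2 = 1 / 2
    linarith
  · rfl
  · show a 0 4 = 0
    linarith
  · show a 0 5 = 1 / 2 - a 0 3
    linarith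
  · show a 1 0 = a 0 3
    linarith
  · show a 1 1 = 1 / 2 - a 0 3
    linarith
  · show a 1 2 = 0
    linarith
  · show a 1 3 = 0
    linarith
  · show a 1 4 = 1 / 2
    linarith
  · show a 1 5 = 0
    linarith

lemma two_val (t : ℝ) : angleVolume (twoAng t) =
    2 * Real.pi * (4 * Pool.Agent.Q99.FAL.hh t) := by
  have z0 := Pool.Agent.Q99.FAL.MX.hh_zero
  have z1 := Pool.Agent.Q99.FAL.MX.hh_half
  rw [av_eq _ (fun k => by
    fin_cases k
    · constructor
      · show (0 : ℝ) + 0 + 1 / 2 = 1 / 2
        ring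
      · show t + 0 + (1 / 2 - t) = (1 : ℝ) / 2
        ring
    · constructor
      · show t + (1 / 2 - t) + 0 = (1 : ℝ) / 2
        ring
      · show (0 : ℝ) + 1 / 2 + 0 = 1 / 2
        ring)]
  congr 1
  show ∑ k : Fin 2, ∑ j, Pool.Agent.Q99.FAL.hh (twoAng t k j) = _
  rw [Fin.sum_univ_two]
  have e1 : ∑ j, Pool.Agent.Q99.FAL.hh (twoAng t (0 : Fin 2) j) =
      Pool.Agent.Q99.FAL.hh 0 + Pool.Agent.Q99.FAL.hh 0 + Pool.Agent.Q99.FAL.hh (1 / 2) +
      Pool.Agent.Q99.FAL.hh t + Pool.Agent.Q99.FAL.hh 0 + Pool.Agent.Q99.FAL.hh (1 / 2 - t) := by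
    rw [Fin.sum_univ_six]
    rfl
  have e2 : ∑ j, Pool.Agent.Q99.FAL.hh (twoAng t (1 : Fin 2) j) =
      Pool.Agent.Q99.FAL.hh t + Pool.Agent.Q99.FAL.hh (1 / 2 - t) + Pool.Agent.Q99.FAL.hh 0 +
      Pool.Agent.Q99.FAL.hh 0 + Pool.Agent.Q99.FAL.hh (1 / 2) + Pool.Agent.Q99.FAL.hh 0 := by
    rw [Fin.sum_univ_six]
    rfl
  refine (congrArg₂ (· + ·) e1 e2).trans ?_
  rw [z0, z1, hh_sym]
  ring

lemma two_geo : IsShadow two 1 ∧ Reduced two 1 ∧ two ≠ [] ∧ Geometric two (twoAng (1 / 4)) ∧
    ∀ k, twoAng (1 / 4) k 0 ≤ 1 / 4 ∧ twoAng (1 / 4) k 3 ≤ 1 / 4 := by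
  refine ⟨?_, ?_, ?_, ⟨two_mem (by norm_num) (by norm_num), ?_, ?_⟩, ?_⟩
  · simp [two, IsShadow, Shape.below, Shape.above]
  · simp [two, Reduced, Shape.above]
  · simp [two]
  · intro k j hk
    fin_cases k <;> fin_cases j <;>
      first
        | exact absurd (Or.inl ⟨rfl, rfl⟩) hk
        | exact absurd (Or.inr ⟨rfl, rfl⟩) hk
        | exact (show (0 : ℝ) < 1 / 2 by norm_num)
        | exact (show (0 : ℝ) < 1 / 4 by norm_num)
        | exact (show (0 : ℝ) < 1 / 2 - 1 / 4 by norm_num)
  · intro a ha
    obtain ⟨t, h0, h1, rfl⟩ := two_eq ha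
    show angleVolume (c := 2) (twoAng t) ≤ angleVolume (c := 2) (twoAng (1 / 4))
    rw [two_val, two_val]
    have := hh_quarter h0 h1
    have hpi := Real.pi_pos
    nlinarith
  · intro k
    fin_cases k
    · exact ⟨show (0 : ℝ) ≤ 1 / 4 by norm_num, show (1 / 4 : ℝ) ≤ 1 / 4 from le_rfl⟩
    · exact ⟨show (1 / 4 : ℝ) ≤ 1 / 4 from le_rfl, show (0 : ℝ) ≤ 1 / 4 by norm_num⟩

/-! ### Comparison with the library -/

open Pool.Agent.Q99.FAL (Pc Ty)

/-- the shapes of the library -/
def toT : Shape → Ty
  | .vert => .V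
  | .hor => .H
  | .forkL => .YL
  | .forkR => .YR
  | .joinL => .LL
  | .joinR => .LR

/-- the vertices of the library -/
def toP (P : Vertex) : Pc := ⟨toT P.shape, P.pos, true, 0⟩

lemma wd_eq (s : Shape) : Pool.Agent.Q99.FAL.wd (toT s) = s.below := by cases s <;> rfl

lemma up_eq (s : Shape) (n : ℕ) : Pool.Agent.Q99.FAL.up (toT s) n = s.above n := by
  cases s <;> rfl

/-- functions on the vertices as functions of the library -/
def cv {α : Type} (D : List Vertex) (a : Fin D.length → α) : Fin (D.map toP).length → α :=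
  fun k => a (k.cast (List.length_map _))

/-- and back -/
def cb {α : Type} (D : List Vertex) (a : Fin (D.map toP).length → α) : Fin D.length → α :=
  fun k => a (k.cast (List.length_map _).symm)

lemma cv_cb {α : Type} (D : List Vertex) (a : Fin (D.map toP).length → α) : cv D (cb D a) = a := rfl

lemma cb_cv {α : Type} (D : List Vertex) (a : Fin D.length → α) : cb D (cv D a) = a := rfl

lemma els_eq (s : Shape) (i : ℕ) (σ : Bool) (m : ℕ) :
    (elems s i σ m).map toQ = Pool.Agent.Q99.HT.elh (toT s) i σ m := by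
  cases s <;> rfl

lemma link_eq : ∀ (D : List Vertex) (t : Fin D.length → Bool × ℕ),
    (link D t).map toQ = Pool.Agent.Q99.HT.lnk (D.map toP) (cv D t)
  | [], _ => rfl
  | P :: D, t => by
    have h := link_eq D (fun k => t k.succ)
    show (elems P.shape P.pos (t 0).1 (t 0).2 ++ link D (fun k => t k.succ)).map toQ =
      Pool.Agent.Q99.HT.elh (toT P.shape) P.pos (t 0).1 (t 0).2 ++
        Pool.Agent.Q99.HT.lnk (D.map toP) (cv D (fun k => t k.succ))
    rw [List.map_append, h, els_eq]

lemma val_eq : ∀ (D : List Vertex) (n : ℕ), IsShadow D n →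
    Pool.Agent.Q99.FAL.Val (D.map toP) n
  | [], _, h => h
  | P :: D, n, h => by
    refine ⟨?_, ?_⟩
    · have := h.1
      rw [← wd_eq] at this
      exact this
    · have := val_eq D _ h.2
      rw [← up_eq] at this
      exact this

lemma pri_eq : ∀ (D : List Vertex) (n : ℕ), Reduced D n →
    Pool.Agent.Q99.FAL.Pri (D.map toP) n
  | [], _, h => h
  | P :: D, n, h => by
    refine ⟨?_, ?_⟩
    · rcases h.1 with h1 | h1
      · exact Or.inl (by rw [h1]; rfl)
      · rw [← up_eq] at h1
        exact Or.inr h1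
    · have := pri_eq D _ h.2
      rw [← up_eq] at this
      exact this

lemma stp_eq {R : Type} [CommRing R] (s : Shape) (i : ℕ) (q : Fin 4 → R) (G : List R) :
    Pool.Agent.Q99.FAL.stp (toT s) i q G = gaps s i q G := by
  cases s <;> unfold Pool.Agent.Q99.FAL.stp gaps <;>
    rcases G.drop i with _ | ⟨x, _ | ⟨y, _ | ⟨z, _ | ⟨w, r⟩⟩⟩⟩ <;> rfl

lemma cls_eq {R : Type} [CommRing R] (s : Shape) (i : ℕ) (q : Fin 4 → R) (G : List R) :
    Pool.Agent.Q99.FAL.cls (toT s) i q G = ended s i q G := by
  cases s <;> unfold Pool.Agent.Q99.FAL.cls ended <;>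
    rcases G.drop i with _ | ⟨x, _ | ⟨y, _ | ⟨z, r⟩⟩⟩ <;> rfl

lemma sol_eq {R : Type} [CommRing R] : ∀ (D : List Vertex) (a : Fin D.length → Fin 6 → R)
    (G : List R) (u : R), IsSolution D a G u ↔ Pool.Agent.Q99.FAL.Sol (D.map toP) (cv D a) G u
  | [], _, _, _ => Iff.rfl
  | P :: D, a, G, u => by
    have ih := sol_eq D (fun k => a k.succ) (gaps P.shape P.pos (corner (a 0)) G) u
    show (a 0 0 + a 0 1 + a 0 2 + (a 0 3 + a 0 4 + a 0 5) = u ∧
      (∀ c ∈ ended P.shape P.pos (corner (a 0)) G, c = u) ∧
      IsSolution D (fun k => a k.succ) (gaps P.shape P.pos (corner (a 0)) G) u) ↔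
      (a 0 0 + a 0 1 + a 0 2 + (a 0 3 + a 0 4 + a 0 5) = u ∧
      (∀ c ∈ Pool.Agent.Q99.FAL.cls (toT P.shape) P.pos (corner (a 0)) G, c = u) ∧
      Pool.Agent.Q99.FAL.Sol (D.map toP) (cv D fun k => a k.succ)
        (Pool.Agent.Q99.FAL.stp (toT P.shape) P.pos (corner (a 0)) G) u)
    rw [cls_eq, stp_eq, ih]

lemma out_eq : ∀ (D : List Vertex) (n : ℕ) (k : Fin (D.map toP).length) (c : Fin 4),
    Pool.Agent.Q99.FAL.Out (D.map toP) n k c ↔ Outer D n (k.cast (List.length_map _)) c
  | [], _, k, _ => k.elim0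
  | P :: D, n, k, c => by
    refine Fin.cases ?_ (fun k => ?_) k
    · show ((P.pos = 0 ∧ c = Pool.Agent.Q99.FAL.lc (toT P.shape)) ∨
        (P.pos + Pool.Agent.Q99.FAL.wd (toT P.shape) = n ∧
          c = Pool.Agent.Q99.FAL.rc (toT P.shape))) ↔
        ((P.pos = 0 ∧ c = P.shape.left) ∨ (P.pos + P.shape.below = n ∧ c = P.shape.right))
      cases P.shape <;> exact Iff.rfl
    · show Pool.Agent.Q99.FAL.Out (D.map toP) (Pool.Agent.Q99.FAL.up (toT P.shape) n) k c ↔
        Outer D (P.shape.above n) (k.cast (List.length_map _)) c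
      rw [up_eq]
      exact out_eq D _ k c

lemma angles_eq (D : List Vertex) (a : Fin D.length → Fin 6 → ℝ) :
    a ∈ Angles D ↔ cv D a ∈ Pool.Agent.Q99.FAL.AS (D.map toP) := by
  constructor
  · rintro ⟨⟨h1, h3⟩, h2⟩
    exact ⟨(sol_eq D a [0, 0] 1).1 h1, fun k => h2 _, fun k i => h3 _ i⟩
  · rintro ⟨h1, h2, h3⟩
    exact ⟨⟨(sol_eq D a [0, 0] 1).2 h1, fun k i => h3 (k.cast (List.length_map _).symm) i⟩,
      fun k => h2 (k.cast (List.length_map _).symm)⟩

lemma sol_sum {R : Type} [CommRing R] : ∀ (D : List Vertex) (x : Fin D.length → Fin 6 → R)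
    (G : List R) (u : R), IsSolution D x G u →
    ∀ k, x k 0 + x k 1 + x k 2 + (x k 3 + x k 4 + x k 5) = u
  | [], _, _, _, _, k => k.elim0
  | P :: D, x, G, u, h, k => by
    refine Fin.cases ?_ (fun k => ?_) k
    · exact h.1
    · exact sol_sum D (fun k => x k.succ) _ u h.2.2 k

lemma fv_eq (D : List Vertex) (a : Fin D.length → Fin 6 → ℝ) (h : a ∈ Angles D) :
    angleVolume a = 2 * Real.pi * Pool.Agent.Q99.FAL.fV (cv D a) := by
  rw [av_eq a fun k => ⟨h.2 k, by
    have h1 := sol_sum D a _ _ h.1.1 k
    have h2 := h.2 k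
    linarith⟩]
  congr 1
  unfold Pool.Agent.Q99.FAL.fV
  rw [← (finCongr (List.length_map (as := D) toP)).sum_comp]
  rfl

lemma ev_eq (D : List Vertex) (x : Fin D.length → Fin 6 → ℝ) (h : x ∈ General D) :
    angleVolume x = 2 * Real.pi * ∑ s, Pool.Agent.Q99.HU.pt (cv D x s) := by
  rw [pt_eq x (sol_sum D x _ _ h.1)]
  congr 1
  rw [← (finCongr (List.length_map (as := D) toP)).sum_comp]
  rfl

lemma cv_ne (D : List Vertex) (x a : Fin D.length → Fin 6 → ℝ) (h : x ≠ a) : cv D x ≠ cv D a :=
  fun e => h (by rw [← cb_cv D x, e, cb_cv])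

lemma dm_eq (D : List Vertex) (a : Fin D.length → Fin 6 → ℝ) (ha : a ∈ Angles D) :
    Dominant D a ↔ Pool.Agent.Q99.HU.Dm (D.map toP) (cv D a) := by
  have hp : (0 : ℝ) < 2 * Real.pi := by positivity
  constructor
  · intro h x hx hs hne
    have g1 : cb D x ∈ General D :=
      ⟨(sol_eq D _ [0, 0] 1).2 (by rw [cv_cb]; exact hs), fun k j => hx _ j⟩
    have g2 := h (cb D x) g1 fun e => hne (by rw [← cv_cb D x, e])
    rw [ev_eq D _ g1, fv_eq D a ha, cv_cb] at g2
    exact lt_of_mul_lt_mul_left g2 hp.le
  · intro h x hx hne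
    have g2 := h (cv D x) (fun s i => hx.2 _ i) ((sol_eq D x [0, 0] 1).1 hx.1) (cv_ne D x a hne)
    rw [ev_eq D x hx, fv_eq D a ha]
    exact mul_lt_mul_of_pos_left g2 hp

lemma mx_eq (D : List Vertex) (a : Fin D.length → Fin 6 → ℝ) (h : Geometric D a) :
    Pool.Agent.Q99.HT.Mx (D.map toP) (cv D a) := by
  have h1 := (angles_eq D a).1 h.angles
  refine ⟨⟨h1.1, h1.2.1, h1.2.2, fun k i hk => h.positive _ i fun ho => hk ?_⟩, fun a' ha' => ?_⟩
  · exact (out_eq D 1 k _).2 ho
  · have h3 : cb D a' ∈ Angles D := (angles_eq D _).2 (by rw [cv_cb]; exact ha')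
    have h2 := h.maximal (cb D a') h3
    rw [fv_eq D _ h3, fv_eq D _ h.angles, cv_cb] at h2
    exact le_of_mul_le_mul_left h2 (by positivity)

/-- **A sufficient condition**: angles which are not obtuse are dominant. -/
theorem dominant (D : List Vertex) (h1 : IsShadow D 1) (h2 : Reduced D 1) (h3 : D ≠ [])
    (a : Fin D.length → Fin 6 → ℝ) (h4 : Geometric D a) (h5 : ∀ k, a k 0 ≤ 1 / 4 ∧ a k 3 ≤ 1 / 4) :
    Dominant D a :=
  (dm_eq D a h4.angles).2 (Pool.Agent.Q99.HU.nop_dm (D.map toP) (val_eq D 1 h1) (pri_eq D 1 h2)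
    (by simpa using h3) (cv D a) (mx_eq D a h4) fun k => h5 _)

/-- The double twist knots and links satisfy the assumptions of the theorem; the circles of the
fully augmented link are two components of the Borromean rings. -/
theorem two_check : IsShadow two 1 ∧ Reduced two 1 ∧ two ≠ [] ∧ Geometric two (twoAng (1 / 4)) ∧
    Dominant two (twoAng (1 / 4)) := by
  obtain ⟨g1, g2, g3, g4, g5⟩ := two_geo
  exact ⟨g1, g2, g3, g4, dominant two g1 g2 g3 _ g4 g5⟩

lemma so_eq (D : List Vertex) (x : Fin D.length → Fin 6 → ℂ) (u : ℂ) :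
    IsComplex D x u ↔ Pool.Agent.Q99.HT.So (D.map toP) (cv D x) u := by
  constructor
  · rintro ⟨h1, h2⟩
    exact ⟨(sol_eq D x [0, 0] u).1 h1, fun k i hk => h2 _ i ((out_eq D 1 k _).1 hk)⟩
  · rintro ⟨h1, h2⟩
    refine ⟨(sol_eq D x [0, 0] u).2 h1, fun k i hk => ?_⟩
    exact h2 (k.cast (List.length_map _).symm) i ((out_eq D 1 _ _).2 hk)

lemma cr_eq (t : Bool × ℕ) : crossings t = Pool.Agent.Q191.LB.sg t.1 * (t.2 : ℤ) := rfl

lemma gi_eq (D : List Vertex) (t : Fin D.length → Bool × ℕ) (x δ : Fin D.length → Fin 6 → ℂ) :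
    equation t x δ =
      Pool.Agent.Q99.HT.GI (Pool.Agent.Q99.HT.wf (cv D t)) (cv D x) (cv D δ) := by
  unfold equation Pool.Agent.Q99.HT.GI
  rw [← (finCongr (List.length_map (as := D) toP)).sum_comp]
  rfl

lemma cri_eq (D : List Vertex) (t : Fin D.length → Bool × ℕ) (x : Fin D.length → Fin 6 → ℂ) :
    Hyperbolic D t x ↔
      Pool.Agent.Q99.HT.CrI (D.map toP) (Pool.Agent.Q99.HT.wf (cv D t)) (cv D x) := by
  constructor
  · rintro ⟨h1, h2⟩
    refine ⟨(so_eq D x 1).1 h1, fun δ hδ => ?_⟩
    have := h2 (cb D δ) ((so_eq D _ 0).2 (by rw [cv_cb]; exact hδ))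
    rw [gi_eq, cv_cb] at this
    exact this
  · rintro ⟨h1, h2⟩
    refine ⟨(so_eq D x 1).2 h1, fun δ hδ => ?_⟩
    rw [gi_eq]
    exact h2 _ ((so_eq D δ 0).1 hδ)

lemma vi_eq (D : List Vertex) (x : Fin D.length → Fin 6 → ℂ) :
    volume x = Pool.Agent.Q99.HT.VI (cv D x) := by
  unfold volume Pool.Agent.Q99.HT.VI
  rw [← (finCongr (List.length_map (as := D) toP)).sum_comp]
  rfl

lemma root_eq (N : ℕ) : root N = Pool.Agent.W715.VC.rt N := rfl

lemma kas_eq (D : List Vertex) (t : Fin D.length → Bool × ℕ) (N : ℕ) :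
    kashaev (link D t) N = Pool.Agent.Q99.HT.kas N (D.map toP) (cv D t) := by
  unfold kashaev jones Pool.Agent.Q99.HT.kas
  by_cases h : 0 < N
  · rw [dif_pos h, dif_pos h, run_eq, link_eq, root_eq]
  · rw [dif_neg h, dif_neg h]

theorem jones_cont (E : List Elem) (N : ℕ) (hN1 : 1 ≤ N) : ContinuousAt (jones N E) (root N) := by
  have hN : 0 < N := hN1
  have h : jones N E = fun v => Pool.Agent.W709.QAT.run N v (E.map toQ)
        (fun l => if l = [⟨0, hN⟩] then 1 else 0) [⟨0, hN⟩] := by
    funext v
    unfold jones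
    rw [dif_pos hN, run_eq]
  rw [h]
  have h0 : root N ≠ 0 := Complex.exp_ne_zero _
  exact Pool.Agent.W613.QAT.run_cont h0
    (fun k hk hkN => Pool.Agent.W613.QAT.br_rt k hk hkN) hN1
      _ (fun _ l => if l = [⟨0, hN⟩] then 1 else 0) (fun s => continuousAt_const) _

lemma pt_pot (D : List Vertex) (t : Fin D.length → Bool × ℕ) (x : Fin D.length → Fin 6 → ℂ) :
    potential t x = Pool.Agent.Q99.HT.PI (Pool.Agent.Q99.HT.wf (cv D t)) (cv D x) := by
  unfold potential Pool.Agent.Q99.HT.PI
  rw [← (finCongr (List.length_map (as := D) toP)).sum_comp]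
  rfl

lemma tot_eq (D : List Vertex) (t : Fin D.length → Bool × ℕ) :
    Pool.Agent.Q99.HX.tot (cv D t) = ∑ k, crossings (t k) := by
  unfold Pool.Agent.Q99.HX.tot
  rw [← (finCongr (List.length_map (as := D) toP)).sum_comp]
  rfl

/-- the exponent -/
lemma exponent (D : List Vertex) (t : Fin D.length → Bool × ℕ) (x : Fin D.length → Fin 6 → ℂ)
    (h : volume x = 2 * Real.pi * (potential t x).re) :
    Pool.Agent.Q99.HT.PI (Pool.Agent.Q99.HT.wf (cv D t)) (cv D x) -
      Complex.I * Real.pi * Pool.Agent.Q99.HX.tot (cv D t) / 4 =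
      complexVolume t x / (2 * Real.pi) := by
  have hpi : (Real.pi : ℂ) ≠ 0 := by exact_mod_cast Real.pi_pos.ne'
  rw [← pt_pot, tot_eq]
  unfold complexVolume cs
  rw [h, eq_div_iff (mul_ne_zero two_ne_zero hpi)]
  have e := Complex.re_add_im (potential t x)
  set A : ℝ := (potential t x).re
  set B : ℝ := (potential t x).im
  rw [← e]
  push_cast
  ring

/-- **The complexified volume conjecture along odd roots of unity for highly twisted links on planar
shadows, with the rate of convergence.** -/
theorem result (D : List Vertex) (h1 : IsShadow D 1) (h2 : Reduced D 1) (h3 : D ≠ [])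
    (a : Fin D.length → Fin 6 → ℝ) (h4 : Geometric D a) (h5 : Dominant D a) :
    ∃ ρ0 : ℝ, 0 < ρ0 ∧ ∀ ρ : ℝ, 0 < ρ → ρ ≤ ρ0 → ∃ (M : ℕ) (C : ℝ), 1 ≤ M ∧
    ∀ (t : Fin D.length → Bool × ℕ) (m : ℕ), M ≤ m → (∀ k, m ≤ (t k).2) →
    (∀ N : ℕ, 1 ≤ N → ContinuousAt (jones N (link D t)) (root N)) ∧
    ∃ x : Fin D.length → Fin 6 → ℂ, Hyperbolic D t x ∧ (∀ k j, ‖x k j - a k j‖ < ρ) ∧
      (∀ x', Hyperbolic D t x' → (∀ k j, ‖x' k j - a k j‖ < ρ) → x' = x) ∧
      volume x = 2 * Real.pi * (potential t x).re ∧ |volume x - angleVolume a| ≤ C / m ^ 2 ∧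
      ∀ e f : ℤ, (∀ᶠ n : ℕ in atTop, framed e f (link D t) n ≠ 0) ∧
        ∃ (B : ℝ) (k : ℕ → ℤ), ∀ᶠ n : ℕ in atTop, ‖Real.pi *
          Complex.log (framed e f (link D t) (n + 2) / framed e f (link D t) n) +
          k n * (Real.pi ^ 2 * Complex.I) - (complexVolume t x + 3 * Real.pi / n)‖ ≤
            B / (n : ℝ) ^ 2 := by
  obtain ⟨ρ0, hρ0, H⟩ := Pool.Agent.Q99.HX.exU (D.map toP) (val_eq D 1 h1) (pri_eq D 1 h2)
    (by simpa using h3) (cv D a) (mx_eq D a h4) ((dm_eq D a h4.angles).1 h5)
  refine ⟨ρ0, hρ0, fun ρ hρ hρ' => ?_⟩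
  obtain ⟨W0, C, hW0, G⟩ := H ρ hρ hρ'
  refine ⟨⌈W0⌉₊, C, Nat.one_le_iff_ne_zero.2 (by
    intro h
    have := Nat.ceil_eq_zero.1 h
    linarith), fun t m hm ht => ⟨fun N hN => jones_cont _ N hN, ?_⟩⟩
  obtain ⟨x, g1, g2, g3, -, gv, g4, y, hy, g5⟩ := G (cv D t) m
    (le_trans (Nat.le_ceil W0) (by exact_mod_cast hm)) (fun k => by exact_mod_cast ht _)
  have hvol : volume (cb D x) = 2 * Real.pi * (potential t (cb D x)).re := by
    rw [vi_eq, cv_cb, pt_pot, cv_cb]
    exact gv
  have hex := exponent D t (cb D x) hvol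
  rw [cv_cb] at hex
  refine ⟨cb D x, (cri_eq D t _).2 (by rw [cv_cb]; exact g1), fun k j => g2 _ j,
    fun x' h6 h7 => ?_, hvol, ?_, fun e f => ?_⟩
  · have := g3 (cv D x') ((cri_eq D t x').1 h6) (fun s i => h7 _ i)
    rw [← this, cb_cv]
  · rw [vi_eq, cv_cb, fv_eq D a h4.angles]
    exact g4
  have hF : ∃ u : ℕ → ℂ, u 0 ≠ 0 ∧ Pool.Agent.Q99.HX.Xp (fun N : ℕ =>
      framed e f (link D t) N / (N * √N * Complex.exp (N * (complexVolume t (cb D x) /
        (2 * Real.pi) + Real.pi * Complex.I * (e + f))))) u := by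
    obtain ⟨u, hu, g6⟩ := Pool.Agent.Q99.HX.xp_framed _ _ y hy g5 e f
    refine ⟨u, hu, ?_⟩
    rw [← hex]
    refine g6.congr' (Eventually.of_forall fun N => ?_)
    unfold framed root
    rw [← kas_eq]
  obtain ⟨u, hu, hX⟩ := hF
  obtain ⟨q1, B, k, q2⟩ := Pool.Agent.Q99.HX.xp_ratio _ _ u hu hX
  refine ⟨q1, B, fun n => k n - 2 * (e + f), ?_⟩
  filter_upwards [q2] with n hn
  have hpi : (Real.pi : ℂ) ≠ 0 := by exact_mod_cast Real.pi_pos.ne'
  have e1 : 2 * (Real.pi : ℂ) * (complexVolume t (cb D x) / (2 * Real.pi) +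
      Real.pi * Complex.I * (e + f)) = complexVolume t (cb D x) +
        2 * (e + f) * (Real.pi ^ 2 * Complex.I) := by
    field_simp
  rw [e1] at hn
  convert hn using 2
  push_cast
  ring

end Pool.Agent.Results.MP_b30479_gt.PlanarShadowRatios
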