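import Pool.Agent.Q191.RP.Gra

/-!
# Kashaev invariants as sums of squares

For tangles `S`, `T` with four ends let `glue S T` be the link obtained by glueing `T` to a quarter
turn of `S`, and let `mirror S` be the mirror image of `S` in a horizontal line.  At the roots of
unity `exp (2 π i a / N)`, `a` coprime to `N`, the `N`-coloured Jones polynomial is *reflection
positive with respect to mirror images followed by a quarter turn*: the matrix
`⟨glue (mirror T_i) T_j⟩` of a finite family of tangles is positive semidefinite.  (The colour `N` is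
outside of the range of the unitary quantum field theory, and without the quarter turn this is
wrong.)  The same holds at `exp (2 π i / r)` for all real `r` with `N - 1/2 < r < N + 1`, for example
at `r = N + 1/2`.  Consequences:

* the Kashaev invariants of the links `C(a_1, …, a_m, a_m, …, a_1)` with alternating diagrams, and
  more generally `C(a_1, …, a_m, -a_m, …, -a_1)` (in particular of all amphicheiral two-bridge
  knots), and all their Galois conjugates, are strictly positive, hence never zero;
* `⟨D(T)⟩ ≥ |⟨T_1⟩|^2 + |⟨T_2⟩|^2` for the double `D(T) = glue (mirror T) T` of a tangle and its two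
  closures `T_1`, `T_2`;
* `n ↦ ⟨C(m, (l, -l^rev)^n, -m^rev)⟩` is the sequence of moments of a positive measure on `[0, ∞)`
  with at most `N` atoms, and this holds for periodic words of arbitrary tangles as well;
* so the growth rates of the Kashaev invariants in such a family grow at least linearly.

A link diagram, cut open at one point, is a list of pieces from bottom to top: cups, caps and
crossings.  Everything is defined from the R-matrix of `U_q(sl_2)`, with `v = q^{1/2}` and
`{k} = v^k - v^{-k}`.  The `N`-coloured Jones polynomial is the (scalar) operator of the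
(1,1)-tangle, read off at the highest weight vector; it is the usual one up to sign and powers of
`v` (framing and orientations).
-/

set_option autoImplicit false

namespace Pool.Agent.Results.MP_b30479_gt.SumsOfSquares

open Finset Filter Topology

/-! ### The coloured Jones polynomial -/

/-- `{n} = v^n - v^{-n}` -/
noncomputable def br (v : ℂ) (n : ℤ) : ℂ := v ^ n - v ^ (-n)

/-- `{n}! = {1} {2} ⋯ {n}` -/
noncomputable def brf (v : ℂ) (n : ℕ) : ℂ := ∏ j ∈ range n, br v ((j : ℤ) + 1)

/-- The positive crossing: the R-matrix of `U_q(sl_2)` on `V_N ⊗ V_N`, `V_N` with basis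
`e_0, …, e_{N-1}`, times the framing factor `v^{-(N^2-1)/2}`; `crossP N v p q` is the coefficient
of `e_{p.1} ⊗ e_{p.2}` in the image of `e_{q.1} ⊗ e_{q.2}`:
`e_i ⊗ e_j ↦ ∑_n v^{-(N-1)(1+i+j) + 2(i-n)(j+n) + n(n-1)/2}
({j+n}! / ({j}! {n}!)) ∏_{t<n} {N-i+t} e_{j+n} ⊗ e_{i-n}`. -/
noncomputable def crossP (N : ℕ) (v : ℂ) : Matrix (Fin N × Fin N) (Fin N × Fin N) ℂ :=
  fun p q => if (p.1 : ℕ) + p.2 = q.1 + q.2 ∧ (q.2 : ℕ) ≤ p.1 then
    v ^ (-((N : ℤ) - 1) * (1 + (q.1 : ℕ) + (q.2 : ℕ)) + 2 * (p.1 : ℕ) * (p.2 : ℕ)) *
      v ^ (((p.1 : ℕ) - q.2) * ((p.1 : ℕ) - q.2 - 1) / 2) *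
      (brf v p.1 / (brf v q.2 * brf v ((p.1 : ℕ) - q.2))) *
      ∏ t ∈ range ((p.1 : ℕ) - q.2), br v ((N : ℤ) - (q.1 : ℕ) + t)
    else 0

/-- The negative crossing, inverse of `crossP N v`:
`e_i ⊗ e_j ↦ ∑_n (-1)^n v^{(N-1)(1+i+j) - 2ij - n(n-1)/2}
({i+n}! / ({i}! {n}!)) ∏_{t<n} {N-j+t} e_{j-n} ⊗ e_{i+n}`. -/
noncomputable def crossN (N : ℕ) (v : ℂ) : Matrix (Fin N × Fin N) (Fin N × Fin N) ℂ :=
  fun p q => if (p.1 : ℕ) + p.2 = q.1 + q.2 ∧ (q.1 : ℕ) ≤ p.2 then
    (-1) ^ ((p.2 : ℕ) - q.1) *
      v ^ (((N : ℤ) - 1) * (1 + (q.1 : ℕ) + (q.2 : ℕ)) - 2 * (q.1 : ℕ) * (q.2 : ℕ)) /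
      v ^ (((p.2 : ℕ) - q.1) * ((p.2 : ℕ) - q.1 - 1) / 2) *
      (brf v p.2 / (brf v q.1 * brf v ((p.2 : ℕ) - q.1))) *
      ∏ t ∈ range ((p.2 : ℕ) - q.1), br v ((N : ℤ) - (q.2 : ℕ) + t)
    else 0

/-- The coefficients of the invariant vector `∑_k kap k e_k ⊗ e_{N-1-k}` of `V_N ⊗ V_N`:
`kap k = (-1)^k v^{k(N-2-k)} {k}! {N-1-k}! / {N-1}!`. -/
noncomputable def kap (N : ℕ) (v : ℂ) (k : ℕ) : ℂ :=
  (-1) ^ k * v ^ ((k : ℤ) * ((N : ℤ) - 2 - k)) * (brf v k * brf v (N - 1 - k) / brf v (N - 1))

/-- The cup: the invariant vector of `V_N ⊗ V_N`. -/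
noncomputable def cup (N : ℕ) (v : ℂ) (p : Fin N × Fin N) : ℂ :=
  if (p.1 : ℕ) + p.2 = N - 1 then kap N v p.1 else 0

/-- The cap: the invariant linear form on `V_N ⊗ V_N`. -/
noncomputable def cap (N : ℕ) (v : ℂ) (p : Fin N × Fin N) : ℂ :=
  if (p.1 : ℕ) + p.2 = N - 1 then (kap N v p.2)⁻¹ else 0

/-! ### Diagrams -/

/-- The pieces of a diagram.  Strands are counted from `0`, from left to right.  `cup i` creates the
strands `i` and `i + 1`, `cap i` closes the strands `i` and `i + 1`, `cross i σ` is a crossing of the
strands `i` and `i + 1`, positive for `σ = true` and negative for `σ = false`. -/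
inductive Piece
  | cup (i : ℕ)
  | cap (i : ℕ)
  | cross (i : ℕ) (σ : Bool)

/-- The number of strands above a piece that has `n` strands below it. -/
def Piece.strands : Piece → ℕ → Option ℕ
  | .cup i, n => if i ≤ n then some (n + 2) else none
  | .cap i, n => if i + 2 ≤ n then some (n - 2) else none
  | .cross i _, n => if i + 2 ≤ n then some n else none

/-- The operator of a piece.  A vector of `V_N ⊗ ⋯ ⊗ V_N` is given by its coefficients with respect
to the basis vectors `e_{s_0} ⊗ ⋯ ⊗ e_{s_{n-1}}`, indexed by the lists `s = [s_0, …, s_{n-1}]`. -/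
noncomputable def Piece.act (N : ℕ) (v : ℂ) : Piece → (List (Fin N) → ℂ) → List (Fin N) → ℂ
  | .cup i, f => fun s => match s.drop i with
      | a :: b :: r => SumsOfSquares.cup N v (a, b) * f (s.take i ++ r)
      | _ => 0
  | .cap i, f => fun s =>
      ∑ p : Fin N × Fin N, SumsOfSquares.cap N v p * f (s.take i ++ p.1 :: p.2 :: s.drop i)
  | .cross i σ, f => fun s => match s.drop i with
      | a :: b :: r => ∑ p : Fin N × Fin N,
          (if σ then crossP N v else crossN N v) (a, b) p * f (s.take i ++ p.1 :: p.2 :: r)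
      | _ => 0

/-- The operator of a list of pieces (from bottom to top). -/
noncomputable def run (N : ℕ) (v : ℂ) (D : List Piece) (f : List (Fin N) → ℂ) :
    List (Fin N) → ℂ :=
  D.foldl (fun g P => P.act N v g) f

/-- A diagram with `n` strands at the bottom and `m` strands at the top.  For `n = m = 1` its closure
is a link diagram, and every link diagram arises in this way; for `n = m = 2` it is (the diagram of) a
tangle with four ends. -/
def IsDiagram (n m : ℕ) (D : List Piece) : Prop :=
  D.foldl (fun k P => k.bind P.strands) (some n) = some m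

/-- The `N`-coloured Jones polynomial of the closure of a (1,1)-tangle (unknot `= 1`; all components
coloured `N`) at `q = v^2`, up to sign and powers of `v`: the entry of the operator of the tangle at
the highest weight vector `e_0`. -/
noncomputable def jones (N : ℕ) (D : List Piece) (v : ℂ) : ℂ :=
  if h : 0 < N then run N v D (fun s => if s = [⟨0, h⟩] then 1 else 0) [⟨0, h⟩] else 0

/-- The points `v` considered here: `v = exp (π i a / N)` with `a` coprime to `N` (so that
`q = v^2 = exp (2 π i a / N)`), and `v = exp (π i / r)` with `N - 1/2 < r < N + 1`. -/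
def Admissible (N : ℕ) (v : ℂ) : Prop :=
  (∃ a : ℕ, a.Coprime N ∧ v = Complex.exp (Real.pi * Complex.I * a / N)) ∨
    ∃ r : ℝ, (N : ℝ) - 1 / 2 < r ∧ r < N + 1 ∧ v = Complex.exp (Real.pi * Complex.I / r)

/-- The Kashaev invariant (up to a factor of absolute value `1`): the value at `v = exp (π i / N)`. -/
noncomputable def kashaev (D : List Piece) (N : ℕ) : ℂ :=
  jones N D (Complex.exp (Real.pi * Complex.I / N))

/-! ### Tangles and two-bridge links -/

/-- A piece moved one strand to the right. -/
def Piece.shift : Piece → Piece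
  | .cup i => .cup (i + 1)
  | .cap i => .cap (i + 1)
  | .cross i σ => .cross (i + 1) σ

/-- The tangle `T` (two strands at the bottom and at the top) turned by a quarter turn. -/
def turn (T : List Piece) : List Piece :=
  [Piece.cup 0] ++ T.map Piece.shift ++ [Piece.cap 2]

/-- A closure of the tangle `T`: the right end at the top is joined with the right end at the
bottom, and the left ends are the ends of the (1,1)-tangle. -/
def close (T : List Piece) : List Piece := [Piece.cup 1] ++ T ++ [Piece.cap 1]

/-- The other closure: the two ends at the bottom are joined, the two ends at the top are the ends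
of the (1,1)-tangle. -/
def closeBottom (T : List Piece) : List Piece := [Piece.cup 0] ++ T ++ [Piece.cap 1]

/-- The reflection of a piece in a horizontal line. -/
def Piece.mirror : Piece → Piece
  | .cup i => .cap i
  | .cap i => .cup i
  | .cross i σ => .cross i (!σ)

/-- The mirror image of a tangle in a horizontal line. -/
def mirror (T : List Piece) : List Piece := (T.map Piece.mirror).reverse

/-- The link obtained from two tangles by glueing a quarter turn of `S` to `T`. -/
def glue (S T : List Piece) : List Piece := close (turn S ++ T)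

/-- The double of a tangle: the tangle is glued to its mirror image, after a quarter turn. -/
def double (T : List Piece) : List Piece := glue (mirror T) T

/-- To the tangle `T` further tangles are added, with a quarter turn before each of them. -/
def join : List Piece → List (List Piece) → List Piece
  | T, [] => T
  | T, R :: l => join (turn T ++ R) l

/-- The word `(R_1, …, R_m, mirror R_m, …, mirror R_1)`, `n` times. -/
def periodic (l : List (List Piece)) : ℕ → List (List Piece)
  | 0 => []
  | n + 1 => (l ++ (l.map mirror).reverse) ++ periodic l n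

/-- `|a|` crossings of the two strands, positive or negative according to the sign of `a`. -/
def twist (a : ℤ) : List Piece := List.replicate a.natAbs (Piece.cross 0 (decide (0 < a)))

/-- The diagram of the two-bridge link `C(a_1, …, a_n)`, as a (1,1)-tangle.  It is alternating if the
signs of the `a_i` alternate. -/
def twoBridge : List ℤ → List Piece
  | [] => close []
  | a :: l => close (join (twist a) (l.map twist))

/-- `(-a_n, …, -a_1)` -/
def opposite (l : List ℤ) : List ℤ := (l.map fun a => -a).reverse

/-- `(a_1, …, a_n, -a_n, …, -a_1)`, `k` times -/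
def repeated (l : List ℤ) : ℕ → List ℤ
  | 0 => []
  | k + 1 => (l ++ opposite l) ++ repeated l k

/-- `limsup (2 π / N) log |⟨D⟩_N| ≤ V` -/
def GrowthAtMost (D : List Piece) (V : ℝ) : Prop :=
  ∀ ε : ℝ, 0 < ε → ∀ᶠ N : ℕ in atTop, ‖kashaev D N‖ ≤ Real.exp (N * (V + ε) / (2 * Real.pi))

/-- `liminf (2 π / N) log |⟨D⟩_N| ≥ V` -/
def GrowthAtLeast (D : List Piece) (V : ℝ) : Prop :=
  ∀ ε : ℝ, 0 < ε → ∀ᶠ N : ℕ in atTop, Real.exp (N * (V - ε) / (2 * Real.pi)) ≤ ‖kashaev D N‖

/-! ### Translation to the library -/

open Pool.Agent.Q191.RP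

/-- the pieces of the library -/
def tr : Piece → Pc
  | .cup i => .cup i
  | .cap i => .cap i
  | .cross i σ => .cross i σ

lemma act_eq (N : ℕ) (v : ℂ) (P : Piece) (f : List (Fin N) → ℂ) :
    P.act N v f = (tr P).act N v f := by
  cases P with
  | cup i =>
    funext s
    simp only [Piece.act, tr, Pc.act]
    rcases s.drop i with _ | ⟨a, _ | ⟨b, r⟩⟩ <;> rfl
  | cap i => rfl
  | cross i σ =>
    funext s
    simp only [Piece.act, tr, Pc.act]
    rcases s.drop i with _ | ⟨a, _ | ⟨b, r⟩⟩ <;> rfl

lemma run_eq (N : ℕ) (v : ℂ) (D : List Piece) (f : List (Fin N) → ℂ) :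
    run N v D f = runA N v (D.map tr) f := by
  unfold run runA
  induction D generalizing f with
  | nil => rfl
  | cons P D ih => rw [List.map_cons, List.foldl_cons, List.foldl_cons, act_eq, ih]

lemma jones_eq (N : ℕ) (D : List Piece) : jones N D = jon N (D.map tr) := by
  funext v
  unfold jones jon
  split_ifs with h
  · rw [run_eq]
  · rfl

lemma strands_eq (P : Piece) (n : ℕ) : P.strands n = (tr P).strands n := by
  cases P <;> rfl

lemma is_eq (n m : ℕ) (D : List Piece) : IsDiagram n m D ↔ Is n m (D.map tr) := by
  unfold IsDiagram Is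
  have h : ∀ (D : List Piece) (o : Option ℕ), D.foldl (fun k P => k.bind P.strands) o =
      (D.map tr).foldl (fun k P => k.bind P.strands) o := by
    intro D
    induction D with
    | nil => intro o; rfl
    | cons P D ih =>
      intro o
      rw [List.map_cons, List.foldl_cons, List.foldl_cons, ih]
      have : P.strands = (tr P).strands := by funext n; exact strands_eq P n
      rw [this]
  rw [h]

lemma shift_eq (T : List Piece) : (T.map Piece.shift).map tr = (T.map tr).map Pc.shift := by
  rw [List.map_map, List.map_map]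
  congr 1
  funext P
  cases P <;> rfl

lemma turn_eq (T : List Piece) : (turn T).map tr = rot (T.map tr) := by
  unfold turn rot
  rw [List.map_append, List.map_append, shift_eq]
  rfl

lemma close_eq (T : List Piece) : (close T).map tr = denom (T.map tr) := by
  unfold close denom
  rw [List.map_append, List.map_append]
  rfl

lemma twist_eq (a : ℤ) : (twist a).map tr = List.replicate a.natAbs (Pc.cross 0 (decide (0 < a))) := by
  unfold twist
  rw [List.map_replicate]
  rfl

lemma closeBottom_eq (T : List Piece) : (closeBottom T).map tr = numer (T.map tr) := by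
  unfold closeBottom numer
  rw [List.map_append, List.map_append]
  rfl

lemma mirror_eq (T : List Piece) : (mirror T).map tr = ds (T.map tr) := by
  unfold mirror ds
  rw [List.map_reverse, List.map_map, List.map_map]
  congr 2
  funext P
  cases P <;> rfl

lemma glue_eq' (S T : List Piece) : (glue S T).map tr = Pool.Agent.Q191.RP.glue (S.map tr) (T.map tr) := by
  unfold glue
  rw [close_eq, List.map_append, turn_eq, glue_eq]

lemma double_eq (T : List Piece) : (double T).map tr = dbl (T.map tr) := by
  unfold double dbl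
  rw [glue_eq', mirror_eq]

lemma join_eq (l : List (List Piece)) : ∀ T : List Piece,
    (join T l).map tr = bt (l.map fun R => R.map tr) (T.map tr) := by
  induction l with
  | nil => intro T; rfl
  | cons R l ih =>
    intro T
    rw [join, ih, List.map_append, turn_eq, List.map_cons, bt]

lemma periodic_eq (l : List (List Piece)) (n : ℕ) :
    (periodic l n).map (fun R => R.map tr) = pwt (l.map fun R => R.map tr) n := by
  induction n with
  | zero => rfl
  | succ n ih =>
    rw [periodic, List.map_append, List.map_append, ih, pwt]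
    congr 2
    unfold ants
    rw [List.map_reverse, List.map_map, List.map_map]
    congr 1
    apply List.map_congr_left
    intro R _
    exact mirror_eq R

lemma bt_bld (l : List ℤ) : ∀ T : List Pc,
    bt ((l.map twist).map fun R => R.map tr) T = bld (wd l) T := by
  induction l with
  | nil => intro T; rfl
  | cons a l ih =>
    intro T
    rw [List.map_cons, List.map_cons, bt, ih, twist_eq, wd, bld, bld_append]
    unfold tw
    rw [bld_rep]

lemma twoBridge_eq (l : List ℤ) : (twoBridge l).map tr = tb l := by
  cases l with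
  | nil => rfl
  | cons a l =>
    rw [twoBridge, close_eq, join_eq, bt_bld, twist_eq, tb, bld_append]
    unfold tw
    rw [bld_rep, List.nil_append]

lemma opposite_eq (l : List ℤ) : opposite l = anti l := rfl

lemma repeated_eq (l : List ℤ) (n : ℕ) : repeated l n = pw l n := by
  induction n with
  | zero => rfl
  | succ n ih => rw [repeated, ih, opposite_eq, pw]

lemma adm_of {N : ℕ} (hN : 2 ≤ N) {v : ℂ} (h : Admissible N v) : Pst N v := by
  rcases h with ⟨a, ha, rfl⟩ | ⟨r, h1, h2, rfl⟩
  · exact Kr_pv' (by omega) ha
  · exact Pst_av (by omega) h1 h2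

lemma root_eq (N : ℕ) : Complex.exp (Real.pi * Complex.I / N) = Pool.Agent.W715.VC.rt N := rfl

lemma kashaev_eq {D : List Piece} (hD : Is 1 1 (D.map tr)) (N : ℕ) :
    kashaev D N = kv (D.map tr) N := by
  unfold kashaev
  rw [jones_eq, root_eq]
  exact jon_kv hD N

lemma most_iff {D : List Piece} (hD : Is 1 1 (D.map tr)) (V : ℝ) :
    GrowthAtMost D V ↔ UB (D.map tr) V := by
  unfold GrowthAtMost UB
  simp only [kashaev_eq hD]

lemma least_iff {D : List Piece} (hD : Is 1 1 (D.map tr)) (V : ℝ) :
    GrowthAtLeast D V ↔ LBd (D.map tr) V := by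
  unfold GrowthAtLeast LBd
  simp only [kashaev_eq hD]

lemma jones_val {N : ℕ} (hN : 2 ≤ N) {D : List Piece} (hD : Is 1 1 (D.map tr)) (v : ℂ) :
    jones N D v = val (N := N) v (by omega) (D.map tr) := by
  rw [jones_eq]
  exact jon_val hD v (by omega)

lemma Is_twoBridge (l : List ℤ) : Is 1 1 ((twoBridge l).map tr) := by
  rw [twoBridge_eq]
  exact Is_tb l

/-! ### Checks of the definitions (not part of the result) -/

/-- The diagrams of the two-bridge links are diagrams. -/
theorem twoBridge_isDiagram (l : List ℤ) : IsDiagram 1 1 (twoBridge l) := by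
  rw [is_eq]
  exact Is_twoBridge l

/-- The double of `twist 2` and `C(2, -2)` are the figure eight knot: its value at `exp (2 π i / N)` is
`∑_i |{i}!|^2`. -/
theorem figureEight (N : ℕ) (hN : 2 ≤ N) : kashaev (double (twist 2)) N =
    (∑ i : Fin N, ‖brf (Complex.exp (Real.pi * Complex.I / N)) i‖ ^ 2 : ℝ) := by
  have i2 : Is 2 2 ((twist 2).map tr) := by
    rw [twist_eq]
    exact Is_two true
  have h1 : Is 1 1 ((double (twist 2)).map tr) := by
    rw [double_eq]
    exact Is_dbl i2
  rw [kashaev_eq h1, double_eq, kv_dbl hN i2]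
  congr 1
  rw [twist_eq]
  exact nq_MM_two hN true

/-! ### The result -/

/-- **Reflection positivity of the Kashaev invariant, with a quarter turn.**
At all admissible points `v` (`N ≥ 2`):
(1) the coloured Jones polynomials are continuous;
(2) the matrices `⟨glue (mirror T_i) T_j⟩` are positive semidefinite;
(3) the value of `C(a_1, …, a_m, -a_m, …, -a_1)` is a positive real number;
(4) for a tangle `T` and a word `l` of tangles there are `w_k, x_k ≥ 0`, `k < N`, such that
`⟨glue (mirror T) (join T (l (mirror l)^rev)^n)⟩ = ∑_k w_k x_k^n` for all `n`;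
(5) the same for the two-bridge links `C(m, (l, -l^rev)^n, -m^rev)`.
(6) At `v = exp (π i a / N)`, `a` coprime to `N`, the value of the double of a tangle is a real number
which is at least the sum of the squares of the absolute values of the two closures.
(7) If the growth rate of the Kashaev invariants of `C(l)` is at least `V`, the growth rate of
`C(l, -l^rev)` is at least `2 V`.
(8) If the growth rate of `C(m, -m^rev)` is at most `A`, and the one of `C(m, l, -l^rev, -m^rev)` is at
least `B`, the growth rate of `C(m, (l, -l^rev)^{n+1}, -m^rev)` is at least `(n + 1) B - n A`. -/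
theorem result :
    (∀ N : ℕ, 2 ≤ N → ∀ v : ℂ, Admissible N v →
      (∀ D : List Piece, ContinuousAt (jones N D) v) ∧
      (∀ (n : ℕ) (T : Fin n → List Piece) (c : Fin n → ℂ), (∀ i, IsDiagram 2 2 (T i)) →
        ∃ r : ℝ, 0 ≤ r ∧ ∑ i, ∑ j, (starRingEnd ℂ) (c i) * c j *
          jones N (glue (mirror (T i)) (T j)) v = r) ∧
      (∀ l : List ℤ, l ≠ [] → ∃ r : ℝ, 0 < r ∧ jones N (twoBridge (l ++ opposite l)) v = r) ∧
      (∀ (T : List Piece) (l : List (List Piece)), IsDiagram 2 2 T → (∀ R ∈ l, IsDiagram 2 2 R) →
        ∃ w x : Fin N → ℝ, (∀ k, 0 ≤ w k ∧ 0 ≤ x k) ∧ ∀ n : ℕ,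
          jones N (glue (mirror T) (join T (periodic l n))) v = ((∑ k, w k * x k ^ n : ℝ) : ℂ)) ∧
      (∀ m l : List ℤ, m ≠ [] →
        ∃ w x : Fin N → ℝ, (∀ k, 0 ≤ w k ∧ 0 ≤ x k) ∧ ∀ n : ℕ,
          jones N (twoBridge (m ++ (repeated l n ++ opposite m))) v =
            ((∑ k, w k * x k ^ n : ℝ) : ℂ))) ∧
    (∀ N a : ℕ, 2 ≤ N → a.Coprime N → ∀ T : List Piece, IsDiagram 2 2 T → ∃ r : ℝ,
      jones N (double T) (Complex.exp (Real.pi * Complex.I * a / N)) = r ∧
      ‖jones N (close T) (Complex.exp (Real.pi * Complex.I * a / N))‖ ^ 2 +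
        ‖jones N (closeBottom T) (Complex.exp (Real.pi * Complex.I * a / N))‖ ^ 2 ≤ r) ∧
    (∀ l : List ℤ, l ≠ [] → ∀ V : ℝ, GrowthAtLeast (twoBridge l) V →
      GrowthAtLeast (twoBridge (l ++ opposite l)) (2 * V)) ∧
    (∀ m l : List ℤ, m ≠ [] → ∀ A B : ℝ, GrowthAtMost (twoBridge (m ++ opposite m)) A →
      GrowthAtLeast (twoBridge (m ++ ((l ++ opposite l) ++ opposite m))) B → ∀ n : ℕ,
      GrowthAtLeast (twoBridge (m ++ (repeated l (n + 1) ++ opposite m)))
        ((n + 1) * B - n * A)) := by
  refine ⟨?_, ?_, ?_, ?_⟩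
  · intro N hN v hv
    have hP := adm_of hN hv
    have hG := hP.good
    refine ⟨?_, ?_, ?_, ?_, ?_⟩
    · intro D
      rw [jones_eq]
      exact jon_cont' (D.map tr) N (by omega) hG.adm
    · intro n T c hT
      have hT' : ∀ i, Is 2 2 ((T i).map tr) := fun i => (is_eq 2 2 (T i)).1 (hT i)
      obtain ⟨r, hr, h⟩ := gram hG univ c (fun i => MM N v ((T i).map tr))
      refine ⟨r, hr, ?_⟩
      rw [← h]
      refine sum_congr rfl fun i _ => sum_congr rfl fun j _ => ?_
      have e : (glue (mirror (T i)) (T j)).map tr =
          Pool.Agent.Q191.RP.glue (ds ((T i).map tr)) ((T j).map tr) := by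
        rw [glue_eq', mirror_eq]
      have hI : Is 1 1 ((glue (mirror (T i)) (T j)).map tr) := by
        rw [e]
        exact Is_glue (Is_ds (hT' i)) (hT' j)
      rw [jones_val hN hI v]
      congr 1
      rw [← val_gram hG hN (hT' i) (hT' j)]
      congr 1
    · intro l hl
      rcases l with _ | ⟨a, l⟩
      · exact absurd rfl hl
      · obtain ⟨r, hr, h⟩ := pos_pal hP hN a l
        refine ⟨r, hr, ?_⟩
        rw [jones_val hN (Is_twoBridge _) v, ← h]
        congr 1
        rw [twoBridge_eq, opposite_eq]
    · intro T l hT hl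
      have hT' := (is_eq 2 2 T).1 hT
      have hl' : ∀ R ∈ l.map (fun R => R.map tr), Is 2 2 R := by
        intro R hR
        obtain ⟨S, hS, rfl⟩ := List.mem_map.1 hR
        exact (is_eq 2 2 S).1 (hl S hS)
      obtain ⟨w, x, h0, h⟩ := moments_bt hP hN hl' hT'
      refine ⟨w, x, h0, fun n => ?_⟩
      have e : (glue (mirror T) (join T (periodic l n))).map tr =
          Pool.Agent.Q191.RP.glue (ds (T.map tr))
            (bt (pwt (l.map fun R => R.map tr) n) (T.map tr)) := by
        rw [glue_eq', mirror_eq, join_eq, periodic_eq]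
      have hI : Is 1 1 ((glue (mirror T) (join T (periodic l n))).map tr) := by
        rw [e]
        exact Is_glue (Is_ds hT') (Is_bt _ (Is_pwt hl' n) hT')
      rw [jones_val hN hI v, ← h n]
      congr 1
    · intro m l hm
      rcases m with _ | ⟨a, m⟩
      · exact absurd rfl hm
      · obtain ⟨w, x, h0, h⟩ := moments_tb hP hN a m l
        refine ⟨w, x, h0, fun n => ?_⟩
        rw [jones_val hN (Is_twoBridge _) v, ← h n]
        congr 1
        rw [twoBridge_eq, opposite_eq, repeated_eq]
  · intro N a hN ha T hT
    have hT' := (is_eq 2 2 T).1 hT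
    obtain ⟨r, h1, h2⟩ := dbl_ge (Kr_pv (N := N) (by omega) ha) hN hT'
    have hI : Is 1 1 ((double T).map tr) := by rw [double_eq]; exact Is_dbl hT'
    have hI1 : Is 1 1 ((close T).map tr) := by rw [close_eq]; exact Is_denom hT'
    have hI2 : Is 1 1 ((closeBottom T).map tr) := by rw [closeBottom_eq]; exact Is_numer hT'
    have e1 : jones N (double T) (pv N a) = val (N := N) (pv N a) (by omega) (dbl (T.map tr)) := by
      rw [jones_val hN hI]
      congr 1
      exact double_eq T
    have e2 : jones N (close T) (pv N a) = val (N := N) (pv N a) (by omega) (denom (T.map tr)) := by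
      rw [jones_val hN hI1]
      congr 1
      exact close_eq T
    have e3 : jones N (closeBottom T) (pv N a) =
        val (N := N) (pv N a) (by omega) (numer (T.map tr)) := by
      rw [jones_val hN hI2]
      congr 1
      exact closeBottom_eq T
    refine ⟨r, ?_, ?_⟩
    · change jones N (double T) (pv N a) = r
      rw [e1, h1]
    · change ‖jones N (close T) (pv N a)‖ ^ 2 + ‖jones N (closeBottom T) (pv N a)‖ ^ 2 ≤ r
      rw [e2, e3]
      exact h2
  · intro l hl V hV
    rcases l with _ | ⟨a, l⟩
    · exact absurd rfl hl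
    · rw [least_iff (Is_twoBridge _), twoBridge_eq] at hV
      rw [least_iff (Is_twoBridge _), twoBridge_eq, opposite_eq]
      exact lb_pal a l hV
  · intro m l hm A B hA hB n
    rcases m with _ | ⟨a, m⟩
    · exact absurd rfl hm
    · rw [most_iff (Is_twoBridge _), twoBridge_eq, opposite_eq] at hA
      rw [least_iff (Is_twoBridge _), twoBridge_eq, opposite_eq, opposite_eq] at hB
      rw [least_iff (Is_twoBridge _), twoBridge_eq, opposite_eq, repeated_eq]
      refine lb_tb a m l ?_ ?_ n
      · exact hA
      · have e : pw l 1 = l ++ anti l := by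
          rw [pw, pw, List.append_nil]
        rw [e]
        exact hB

end Pool.Agent.Results.MP_b30479_gt.SumsOfSquares
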